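import Mathlib
import Pool.Agent.Lib.MP_ca0fc2_an.Mg.G122

/-!
# Definitions of campaign TK (sets on which all corona problems have bounded solutions), MP_ca0fc2_an

`E` is a complex inner product space of dimension `m + 1`, `ball 0 1` its unit ball.
-/

set_option autoImplicit false

open Metric Set MeasureTheory Filter Topology
open scoped InnerProductSpace ENNReal ContDiff

namespace Pool.Agent.MPca0fc2.TK

open Pool.Agent.MPca0fc2.PT
open Pool.Agent.MPca0fc2.QT
open Pool.Agent.MPca0fc2.TS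
open Pool.Agent.MPca0fc2.TE

variable {E : Type*} [NormedAddCommGroup E] [InnerProductSpace ℂ E]

/-- admissible weights: holomorphic functions `H` on the ball, whose absolute value is comparable with the
nonisotropic distance to a set -/
structure Adm (c C : ℝ) (H : E → ℂ) : Prop where
  holo : DifferentiableOn ℂ H (ball 0 1)
  lo : ∀ z ∈ ball (0 : E) 1, c * (1 - ‖z‖ ^ 2) ≤ ‖H z‖
  up : ∀ z ∈ ball (0 : E) 1, ‖H z‖ ≤ C
  tri : ∀ z ∈ ball (0 : E) 1, ∀ w ∈ ball (0 : E) 1, ‖H z‖ ≤ C * (‖H w‖ + ‖1 - ⟪w, z⟫_ℂ‖)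

/-- homogeneous sets of (nonisotropic) dimension `β`: subsets with distances `≥ r` of a set of
radius `R` have at most `C (R/r)^β` elements -/
def Hom (β C : ℝ) (K : Set E) : Prop :=
  ∀ x₀ ∈ K, ∀ r R : ℝ, 0 < r → r ≤ R → ∀ S : Finset E, (S : Set E) ⊆ K →
    (∀ x ∈ S, ‖1 - ⟪x, x₀⟫_ℂ‖ < R) → (∀ x ∈ S, ∀ y ∈ S, x ≠ y → r ≤ ‖1 - ⟪x, y⟫_ℂ‖) →
    (S.card : ℝ) ≤ C * (R / r) ^ β

/-- the summand of the function `FF`: `x` a point of the boundary, `r > 0` a scale -/
noncomputable def tm (α r : ℝ) (x z : E) : ℂ := ((r : ℂ) / (1 + r - ⟪x, z⟫_ℂ)) ^ (α : ℂ)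

section meas

variable [MeasurableSpace E]

/-- the measure with density `(1 - |x|²)/|H|` -/
noncomputable def nuH (μ : Measure E) (H : E → ℂ) : Measure E :=
  (μ.restrict (ball 0 1)).withDensity fun x => ENNReal.ofReal ((1 - ‖x‖ ^ 2) / ‖H x‖)

end meas

end Pool.Agent.MPca0fc2.TK
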