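import Mathlib
import Pool.Agent.Lib.MP_ca0fc2_an.TK.Defs

set_option autoImplicit false
set_option linter.unusedSectionVars false

open Metric Set MeasureTheory Filter Topology
open scoped InnerProductSpace ENNReal ContDiff

namespace Pool.Agent.MPca0fc2.TK

variable {E : Type*} [NormedAddCommGroup E] [InnerProductSpace ℂ E]

/-- Splitting of the inner product along a unit vector. -/
private theorem N1_split {e : E} (he : ‖e‖ = 1) (x z : E) :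
    ⟪x - ⟪e, x⟫_ℂ • e, z - ⟪e, z⟫_ℂ • e⟫_ℂ = ⟪x, z⟫_ℂ - ⟪x, e⟫_ℂ * ⟪e, z⟫_ℂ := by
  have h1 : ⟪e, e⟫_ℂ = 1 := by
    rw [inner_self_eq_norm_sq_to_K, he]; simp
  rw [inner_sub_left, inner_sub_right, inner_sub_right, inner_smul_left, inner_smul_right,
    inner_smul_left, inner_smul_right, h1, inner_conj_symm]
  ring

/-- The orthogonal part is controlled by the distance. -/
private theorem N1_perp {e : E} (he : ‖e‖ = 1) {x : E} (hx : ‖x‖ ≤ 1) {s : ℝ}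
    (hs : s ≤ 1) : ‖x - ⟪e, x⟫_ℂ • e‖ ^ 2 ≤ 2 * (1 - s * ‖⟪e, x⟫_ℂ‖) := by
  have h := N1_split he x x
  have h2 : ⟪x, e⟫_ℂ * ⟪e, x⟫_ℂ = ((‖⟪e, x⟫_ℂ‖ ^ 2 : ℝ) : ℂ) := by
    rw [← inner_conj_symm x e, RCLike.conj_mul]
    simp
  rw [inner_self_eq_norm_sq_to_K, inner_self_eq_norm_sq_to_K, h2] at h
  have h3 : ‖x - ⟪e, x⟫_ℂ • e‖ ^ 2 = ‖x‖ ^ 2 - ‖⟪e, x⟫_ℂ‖ ^ 2 := by
    have h4 := congrArg Complex.re h
    simpa [← Complex.ofReal_pow] using h4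
  rw [h3]
  have h5 : ‖⟪e, x⟫_ℂ‖ ≤ 1 := by
    refine (norm_inner_le_norm e x).trans ?_
    rw [he, one_mul]; exact hx
  have h6 := norm_nonneg ⟪e, x⟫_ℂ
  have h7 := norm_nonneg x
  nlinarith [mul_le_of_le_one_left h6 hs, sq_nonneg (1 - ‖⟪e, x⟫_ℂ‖)]

/-- The quasi triangle inequality on the closed ball (see VP1 in the library, `quasi_tri`, or prove: `‖1 - ⟪x, z⟫‖^(1/2)` satisfies the triangle inequality, Rudin 5.1.2). -/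
theorem qtri {x y z : E} (hx : ‖x‖ ≤ 1) (hy : ‖y‖ ≤ 1) (hz : ‖z‖ ≤ 1) :
    ‖1 - ⟪x, z⟫_ℂ‖ ≤ 2 * (‖1 - ⟪x, y⟫_ℂ‖ + ‖1 - ⟪y, z⟫_ℂ‖) := by
  by_cases hy0 : y = 0
  · subst hy0
    have h1 : ‖1 - ⟪x, z⟫_ℂ‖ ≤ 2 := by
      have h2 : ‖⟪x, z⟫_ℂ‖ ≤ 1 := by
        refine (norm_inner_le_norm x z).trans ?_
        nlinarith [norm_nonneg x, norm_nonneg z]
      refine (norm_sub_le _ _).trans ?_
      rw [norm_one]; linarith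
    simp only [inner_zero_right, inner_zero_left, sub_zero, norm_one]
    linarith
  have hn : 0 < ‖y‖ := norm_pos_iff.mpr hy0
  obtain ⟨e, he, hye⟩ : ∃ e : E, ‖e‖ = 1 ∧ y = ((‖y‖ : ℝ) : ℂ) • e := by
    refine ⟨((‖y‖⁻¹ : ℝ) : ℂ) • y, ?_, ?_⟩
    · rw [norm_smul, Complex.norm_real, norm_inv, norm_norm, inv_mul_cancel₀ hn.ne']
    · rw [smul_smul, ← Complex.ofReal_mul, mul_inv_cancel₀ hn.ne', Complex.ofReal_one, one_smul]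
  set s : ℝ := ‖y‖ with hs
  have hs0 : 0 ≤ s := hn.le
  -- the coordinates
  have hxy : ⟪x, y⟫_ℂ = (s : ℂ) * ⟪x, e⟫_ℂ := by
    conv_lhs => rw [hye]
    rw [inner_smul_right]
  have hyz : ⟪y, z⟫_ℂ = (s : ℂ) * ⟪e, z⟫_ℂ := by
    conv_lhs => rw [hye]
    rw [inner_smul_left, Complex.conj_ofReal]
  have ha : ‖⟪x, e⟫_ℂ‖ = ‖⟪e, x⟫_ℂ‖ := norm_inner_symm x e
  have ha1 : ‖⟪e, x⟫_ℂ‖ ≤ 1 := by
    refine (norm_inner_le_norm e x).trans ?_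
    rw [he, one_mul]; exact hx
  have hc1 : ‖⟪e, z⟫_ℂ‖ ≤ 1 := by
    refine (norm_inner_le_norm e z).trans ?_
    rw [he, one_mul]; exact hz
  have hp : 1 - s * ‖⟪e, x⟫_ℂ‖ ≤ ‖1 - ⟪x, y⟫_ℂ‖ := by
    have h := norm_sub_norm_le (1 : ℂ) ⟪x, y⟫_ℂ
    rw [norm_one, hxy, norm_mul, Complex.norm_real, Real.norm_of_nonneg hs0, ha] at h
    rw [hxy]; exact h
  have hq : 1 - s * ‖⟪e, z⟫_ℂ‖ ≤ ‖1 - ⟪y, z⟫_ℂ‖ := by
    have h := norm_sub_norm_le (1 : ℂ) ⟪y, z⟫_ℂ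
    rw [norm_one, hyz, norm_mul, Complex.norm_real, Real.norm_of_nonneg hs0] at h
    rw [hyz]; exact h
  have h1 := N1_perp he hx hy
  have h2 := N1_perp he hz hy
  have h3 : ‖⟪x - ⟪e, x⟫_ℂ • e, z - ⟪e, z⟫_ℂ • e⟫_ℂ‖ ≤
      ‖1 - ⟪x, y⟫_ℂ‖ + ‖1 - ⟪y, z⟫_ℂ‖ := by
    refine (norm_inner_le_norm _ _).trans ?_
    nlinarith [sq_nonneg (‖x - ⟪e, x⟫_ℂ • e‖ - ‖z - ⟪e, z⟫_ℂ • e‖)]
  have h4 : ‖1 - ⟪x, e⟫_ℂ * ⟪e, z⟫_ℂ‖ ≤ ‖1 - ⟪x, y⟫_ℂ‖ + ‖1 - ⟪y, z⟫_ℂ‖ := by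
    have e1 : 1 - ⟪x, e⟫_ℂ * ⟪e, z⟫_ℂ = (1 - ⟪x, y⟫_ℂ) + ⟪x, e⟫_ℂ * ((s : ℂ) - ⟪e, z⟫_ℂ) := by
      rw [hxy]; ring
    rw [e1]
    refine (norm_add_le _ _).trans ?_
    rw [norm_mul]
    have h5 : ‖(s : ℂ) - ⟪e, z⟫_ℂ‖ ≤ ‖1 - ⟪y, z⟫_ℂ‖ := by
      rw [hyz]
      have h6 : ‖(s : ℂ) - ⟪e, z⟫_ℂ‖ ^ 2 ≤ ‖1 - (s : ℂ) * ⟪e, z⟫_ℂ‖ ^ 2 := by
        have h7 : ‖⟪e, z⟫_ℂ‖ ^ 2 ≤ 1 := by nlinarith [norm_nonneg ⟪e, z⟫_ℂ]
        have h8 : s ^ 2 ≤ 1 := by nlinarith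
        generalize ⟪e, z⟫_ℂ = c at h7
        rw [← Complex.normSq_eq_norm_sq, Complex.normSq_apply] at h7
        rw [← Complex.normSq_eq_norm_sq, ← Complex.normSq_eq_norm_sq, Complex.normSq_apply,
          Complex.normSq_apply]
        simp only [Complex.sub_re, Complex.sub_im, Complex.ofReal_re, Complex.ofReal_im,
          Complex.mul_re, Complex.mul_im, Complex.one_re, Complex.one_im]
        nlinarith [mul_nonneg (sub_nonneg.mpr h8) (sub_nonneg.mpr h7)]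
      exact (sq_le_sq₀ (norm_nonneg _) (norm_nonneg _)).mp h6
    have h9 : ‖⟪x, e⟫_ℂ‖ ≤ 1 := by rw [ha]; exact ha1
    have h10 := norm_nonneg ((s : ℂ) - ⟪e, z⟫_ℂ)
    have h11 := norm_nonneg ⟪x, e⟫_ℂ
    nlinarith
  have h5 : 1 - ⟪x, z⟫_ℂ = (1 - ⟪x, e⟫_ℂ * ⟪e, z⟫_ℂ) -
      ⟪x - ⟪e, x⟫_ℂ • e, z - ⟪e, z⟫_ℂ • e⟫_ℂ := by
    rw [N1_split he]; ring
  rw [h5]
  refine (norm_sub_le _ _).trans ?_
  linarith

/-- Nets. Proof. Choose `ζ ∈ K`. By `Hom` with `x₀ = ζ`, `R = max 3 r` every finite `r`-separated subset of `K` has at most `C (R/r)^β` elements (`‖1 - ⟪x, ζ⟫‖ ≤ 2 < 3`), so there is one with the largest number of elements (`Nat.findGreatest` / `Nat.sSup`);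
it is a net: otherwise a point could be added (`‖1 - ⟪x, y⟫‖ = ‖1 - ⟪y, x⟫‖`). -/
theorem net {β C : ℝ} {K : Set E} (hK : Hom β C K) (hKs : K ⊆ sphere 0 1) (hne : K.Nonempty)
    {r : ℝ} (hr : 0 < r) : ∃ S : Finset E, (S : Set E) ⊆ K ∧
      (∀ x ∈ S, ∀ y ∈ S, x ≠ y → r ≤ ‖1 - ⟪x, y⟫_ℂ‖) ∧
      ∀ ζ ∈ K, ∃ x ∈ S, ‖1 - ⟪x, ζ⟫_ℂ‖ < r := by
  classical
  obtain ⟨ζ₀, hζ₀⟩ := hne
  let P : ℕ → Prop := fun n => ∃ S : Finset E, (S : Set E) ⊆ K ∧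
      (∀ x ∈ S, ∀ y ∈ S, x ≠ y → r ≤ ‖1 - ⟪x, y⟫_ℂ‖) ∧ S.card = n
  have hP0 : P 0 := ⟨∅, by simp, by simp, rfl⟩
  have hnorm : ∀ x ∈ K, ‖x‖ = 1 := fun x hx => by simpa using hKs hx
  have hbd : ∀ n, P n → n ≤ ⌊C * (max 3 r / r) ^ β⌋₊ := by
    rintro n ⟨S, hSK, hsep, rfl⟩
    refine Nat.le_floor (hK ζ₀ hζ₀ r (max 3 r) hr (le_max_right _ _) S hSK ?_ hsep)
    intro x hx
    have h1 : ‖⟪x, ζ₀⟫_ℂ‖ ≤ 1 := by
      refine (norm_inner_le_norm x ζ₀).trans ?_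
      rw [hnorm x (hSK hx), hnorm ζ₀ hζ₀, one_mul]
    have h2 : ‖1 - ⟪x, ζ₀⟫_ℂ‖ ≤ 2 := by
      refine (norm_sub_le _ _).trans ?_
      rw [norm_one]; linarith
    exact h2.trans_lt (lt_of_lt_of_le (by norm_num) (le_max_left 3 r))
  obtain ⟨S, hSK, hsep, hcard⟩ := Nat.findGreatest_spec (P := P) (Nat.zero_le _) hP0
  refine ⟨S, hSK, hsep, ?_⟩
  intro ζ hζ
  by_contra hcon
  push Not at hcon
  have hsymm : ∀ x y : E, ‖1 - ⟪x, y⟫_ℂ‖ = ‖1 - ⟪y, x⟫_ℂ‖ := by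
    intro x y
    rw [← inner_conj_symm x y, ← RCLike.norm_conj (1 - ⟪y, x⟫_ℂ)]
    simp
  have hζS : ζ ∉ S := by
    intro h
    have h1 := hcon ζ h
    rw [inner_self_eq_norm_sq_to_K, hnorm ζ hζ] at h1
    simp at h1
    linarith
  have hPn : P (S.card + 1) := by
    refine ⟨insert ζ S, ?_, ?_, Finset.card_insert_of_notMem hζS⟩
    · rw [Finset.coe_insert]
      exact Set.insert_subset hζ hSK
    · intro x hx y hy hxy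
      rw [Finset.mem_insert] at hx hy
      rcases hx with rfl | hx
      · rcases hy with rfl | hy
        · exact absurd rfl hxy
        · rw [hsymm]; exact hcon y hy
      · rcases hy with rfl | hy
        · exact hcon x hx
        · exact hsep x hx y hy hxy
  have h1 := Nat.le_findGreatest (P := P) (hbd _ hPn) hPn
  rw [← hcard] at h1
  omega

end Pool.Agent.MPca0fc2.TK
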