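import Mathlib
import Pool.Agent.Lib.MP_ca0fc2_an.TK.Defs

set_option autoImplicit false
set_option linter.unusedSectionVars false

open Metric Set MeasureTheory Filter Topology
open scoped InnerProductSpace ENNReal ContDiff

namespace Pool.Agent.MPca0fc2.TK

open Pool.Agent.MPca0fc2.PT
open Pool.Agent.MPca0fc2.QT
open Pool.Agent.MPca0fc2.TS
open Pool.Agent.MPca0fc2.TE

variable {E : Type*} [NormedAddCommGroup E] [InnerProductSpace ℂ E]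

/-- Auxiliary bound for `real_adm`. -/
private lemma K8_q_le {k : ℕ} (e : Fin k → E) (z : E) :
    ‖∑ j, ⟪e j, z⟫_ℂ ^ 2‖ ≤ ∑ j, ‖⟪e j, z⟫_ℂ‖ ^ 2 := by
  refine (norm_sum_le _ _).trans (le_of_eq ?_)
  refine Finset.sum_congr rfl fun j _ => ?_
  rw [norm_pow]

private lemma K8_conj (a : ℂ) : a = (starRingEnd ℂ) a + 2 * Complex.I * (a.im : ℂ) := by
  apply Complex.ext
  · simp
  · simp
    ring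

private lemma K8_bessel {k : ℕ} {e : Fin k → E} (he : Orthonormal ℂ e) (z : E) :
    ∑ j, ‖⟪e j, z⟫_ℂ‖ ^ 2 ≤ ‖z‖ ^ 2 := by
  exact he.sum_inner_products_le (s := Finset.univ) z

private lemma K8_perp {k : ℕ} {e : Fin k → E} (he : Orthonormal ℂ e) (w : E) :
    ‖w - ∑ j, ⟪e j, w⟫_ℂ • e j‖ ^ 2 = ‖w‖ ^ 2 - ∑ j, ‖⟪e j, w⟫_ℂ‖ ^ 2 := by
  have h1 : ⟪w, ∑ j, ⟪e j, w⟫_ℂ • e j⟫_ℂ = ((∑ j, ‖⟪e j, w⟫_ℂ‖ ^ 2 : ℝ) : ℂ) := by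
    rw [inner_sum, Complex.ofReal_sum]
    refine Finset.sum_congr rfl fun j _ => ?_
    rw [inner_smul_right, ← inner_conj_symm w (e j), Complex.mul_conj, Complex.normSq_eq_norm_sq]
  have h2 : ⟪∑ j, ⟪e j, w⟫_ℂ • e j, ∑ j, ⟪e j, w⟫_ℂ • e j⟫_ℂ = ((∑ j, ‖⟪e j, w⟫_ℂ‖ ^ 2 : ℝ) : ℂ) := by
    rw [he.inner_sum, Complex.ofReal_sum]
    refine Finset.sum_congr rfl fun j _ => ?_
    rw [mul_comm, Complex.mul_conj, Complex.normSq_eq_norm_sq]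
  have h3 : ‖∑ j, ⟪e j, w⟫_ℂ • e j‖ ^ 2 = ∑ j, ‖⟪e j, w⟫_ℂ‖ ^ 2 := by
    rw [← inner_self_eq_norm_sq (𝕜 := ℂ), h2]
    exact Complex.ofReal_re _
  rw [@norm_sub_sq ℂ, h1, h3]
  simp only [RCLike.re_to_complex, Complex.ofReal_re]
  ring

private lemma K8_tri {k : ℕ} {e : Fin k → E} (he : Orthonormal ℂ e) {z w : E}
    (hz : z ∈ ball (0 : E) 1) (hw : w ∈ ball (0 : E) 1) :
    ‖1 - ∑ j, ⟪e j, z⟫_ℂ ^ 2‖ ≤ 20 * (‖1 - ∑ j, ⟪e j, w⟫_ℂ ^ 2‖ + ‖1 - ⟪w, z⟫_ℂ‖) := by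
  have hz1 : ‖z‖ < 1 := by simpa using hz
  have hw1 : ‖w‖ < 1 := by simpa using hw
  have hz2 : ‖z‖ ^ 2 ≤ 1 := by nlinarith [norm_nonneg z]
  have hw2 : ‖w‖ ^ 2 ≤ 1 := by nlinarith [norm_nonneg w]
  set D : ℝ := ‖1 - ⟪w, z⟫_ℂ‖ with hD
  set Hw : ℝ := ‖1 - ∑ j, ⟪e j, w⟫_ℂ ^ 2‖ with hHw
  have hD0 : 0 ≤ D := norm_nonneg _
  have hHw0 : 0 ≤ Hw := norm_nonneg _
  -- `‖z - w‖ ^ 2 ≤ 2 D`
  have hN : ‖z - w‖ ^ 2 ≤ 2 * D := by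
    have h1 : ‖z - w‖ ^ 2 = ‖w‖ ^ 2 - 2 * RCLike.re ⟪w, z⟫_ℂ + ‖z‖ ^ 2 := by
      rw [norm_sub_rev, @norm_sub_sq ℂ]
    have h2 : (1 - ⟪w, z⟫_ℂ).re ≤ D := Complex.re_le_norm _
    have h3 : (1 - ⟪w, z⟫_ℂ).re = 1 - RCLike.re ⟪w, z⟫_ℂ := by
      simp
    rw [h1]
    linarith
  have hB : ∑ j, ‖⟪e j, z⟫_ℂ - ⟪e j, w⟫_ℂ‖ ^ 2 ≤ ‖z - w‖ ^ 2 := by
    have h1 := K8_bessel he (z - w)
    simpa only [inner_sub_right] using h1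
  have hbw := K8_bessel he w
  -- `1 - ‖w‖ ^ 2 ≤ Hw`
  have hq : 1 - ‖∑ j, ⟪e j, w⟫_ℂ ^ 2‖ ≤ Hw := by
    have h1 := norm_sub_norm_le (1 : ℂ) (∑ j, ⟪e j, w⟫_ℂ ^ 2)
    rw [norm_one] at h1
    exact h1
  have hq2 := K8_q_le e w
  have hlo : 1 - ‖w‖ ^ 2 ≤ Hw := by linarith
  -- the imaginary parts
  have hb : 2 * ∑ j, (⟪e j, w⟫_ℂ).im ^ 2 ≤ Hw := by
    have h1 : (1 - ∑ j, ⟪e j, w⟫_ℂ ^ 2).re ≤ Hw := Complex.re_le_norm _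
    have h2 : (1 - ∑ j, ⟪e j, w⟫_ℂ ^ 2).re = 1 - ∑ j, ((⟪e j, w⟫_ℂ).re ^ 2 - (⟪e j, w⟫_ℂ).im ^ 2) := by
      rw [Complex.sub_re, Complex.one_re, Complex.re_sum]
      congr 1
      refine Finset.sum_congr rfl fun j _ => ?_
      rw [pow_two, Complex.mul_re]
      ring
    have h3 : ∑ j, ‖⟪e j, w⟫_ℂ‖ ^ 2 = ∑ j, ((⟪e j, w⟫_ℂ).re ^ 2 + (⟪e j, w⟫_ℂ).im ^ 2) := by
      refine Finset.sum_congr rfl fun j _ => ?_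
      rw [← Complex.normSq_eq_norm_sq, Complex.normSq_apply]
      ring
    rw [Finset.sum_sub_distrib] at h2
    rw [Finset.sum_add_distrib] at h3
    linarith
  have hIm : ‖∑ j, (2 * Complex.I * ((⟪e j, w⟫_ℂ).im : ℂ)) * (⟪e j, z⟫_ℂ - ⟪e j, w⟫_ℂ)‖ ≤
      Hw / 2 + ‖z - w‖ ^ 2 := by
    refine (norm_sum_le _ _).trans ?_
    have h1 : ∀ j ∈ (Finset.univ : Finset (Fin k)),
        ‖(2 * Complex.I * ((⟪e j, w⟫_ℂ).im : ℂ)) * (⟪e j, z⟫_ℂ - ⟪e j, w⟫_ℂ)‖ ≤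
          (⟪e j, w⟫_ℂ).im ^ 2 + ‖⟪e j, z⟫_ℂ - ⟪e j, w⟫_ℂ‖ ^ 2 := by
      intro j _
      rw [norm_mul, norm_mul, norm_mul, Complex.norm_I, Complex.norm_real, Complex.norm_ofNat,
        Real.norm_eq_abs]
      nlinarith [sq_abs (⟪e j, w⟫_ℂ).im, sq_nonneg (|(⟪e j, w⟫_ℂ).im| - ‖⟪e j, z⟫_ℂ - ⟪e j, w⟫_ℂ‖)]
    refine (Finset.sum_le_sum h1).trans ?_
    rw [Finset.sum_add_distrib]
    linarith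
  -- the conjugate part
  have hconj : ∑ j, (starRingEnd ℂ) ⟪e j, w⟫_ℂ * (⟪e j, z⟫_ℂ - ⟪e j, w⟫_ℂ) =
      ⟪w, z - w⟫_ℂ - ⟪w - ∑ j, ⟪e j, w⟫_ℂ • e j, z - w⟫_ℂ := by
    rw [inner_sub_left, sub_sub_cancel, sum_inner]
    refine Finset.sum_congr rfl fun j _ => ?_
    rw [inner_smul_left, inner_sub_right]
  have hc1 : ‖⟪w, z - w⟫_ℂ‖ ≤ D + Hw := by
    have h1 : ⟪w, z - w⟫_ℂ = -(1 - ⟪w, z⟫_ℂ) + ((1 - ‖w‖ ^ 2 : ℝ) : ℂ) := by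
      rw [inner_sub_right, inner_self_eq_norm_sq_to_K]
      push_cast
      simp
    rw [h1]
    refine (norm_add_le _ _).trans ?_
    rw [norm_neg, Complex.norm_real, Real.norm_eq_abs, abs_of_nonneg (by linarith)]
    linarith
  have hc2 : ‖⟪w - ∑ j, ⟪e j, w⟫_ℂ • e j, z - w⟫_ℂ‖ ≤ (Hw + ‖z - w‖ ^ 2) / 2 := by
    have h1 := norm_inner_le_norm (𝕜 := ℂ) (w - ∑ j, ⟪e j, w⟫_ℂ • e j) (z - w)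
    have h2 := K8_perp he w
    have h3 : ‖w - ∑ j, ⟪e j, w⟫_ℂ • e j‖ ^ 2 ≤ Hw := by
      rw [h2]
      linarith
    nlinarith [sq_nonneg (‖w - ∑ j, ⟪e j, w⟫_ℂ • e j‖ - ‖z - w‖)]
  have hS : ‖∑ j, ⟪e j, w⟫_ℂ * (⟪e j, z⟫_ℂ - ⟪e j, w⟫_ℂ)‖ ≤
      D + 2 * Hw + 3 / 2 * ‖z - w‖ ^ 2 := by
    have h1 : ∑ j, ⟪e j, w⟫_ℂ * (⟪e j, z⟫_ℂ - ⟪e j, w⟫_ℂ) =
        (⟪w, z - w⟫_ℂ - ⟪w - ∑ j, ⟪e j, w⟫_ℂ • e j, z - w⟫_ℂ) +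
          ∑ j, (2 * Complex.I * ((⟪e j, w⟫_ℂ).im : ℂ)) * (⟪e j, z⟫_ℂ - ⟪e j, w⟫_ℂ) := by
      rw [← hconj, ← Finset.sum_add_distrib]
      refine Finset.sum_congr rfl fun j _ => ?_
      rw [← add_mul]
      congr 1
      exact K8_conj _
    rw [h1]
    refine (norm_add_le _ _).trans ?_
    have h2 := norm_sub_le (⟪w, z - w⟫_ℂ) (⟪w - ∑ j, ⟪e j, w⟫_ℂ • e j, z - w⟫_ℂ)
    linarith
  have hq3 : 1 - ∑ j, ⟪e j, z⟫_ℂ ^ 2 = (1 - ∑ j, ⟪e j, w⟫_ℂ ^ 2) -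
      (2 * ∑ j, ⟪e j, w⟫_ℂ * (⟪e j, z⟫_ℂ - ⟪e j, w⟫_ℂ) + ∑ j, (⟪e j, z⟫_ℂ - ⟪e j, w⟫_ℂ) ^ 2) := by
    have h1 : ∑ j, ⟪e j, z⟫_ℂ ^ 2 = ∑ j, ⟪e j, w⟫_ℂ ^ 2 +
        (2 * ∑ j, ⟪e j, w⟫_ℂ * (⟪e j, z⟫_ℂ - ⟪e j, w⟫_ℂ) + ∑ j, (⟪e j, z⟫_ℂ - ⟪e j, w⟫_ℂ) ^ 2) := by
      rw [Finset.mul_sum, ← Finset.sum_add_distrib, ← Finset.sum_add_distrib]
      refine Finset.sum_congr rfl fun j _ => ?_
      ring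
    rw [h1]
    ring
  rw [hq3]
  refine (norm_sub_le _ _).trans ?_
  have h5 := norm_add_le (2 * ∑ j, ⟪e j, w⟫_ℂ * (⟪e j, z⟫_ℂ - ⟪e j, w⟫_ℂ))
    (∑ j, (⟪e j, z⟫_ℂ - ⟪e j, w⟫_ℂ) ^ 2)
  have h6 : ‖∑ j, (⟪e j, z⟫_ℂ - ⟪e j, w⟫_ℂ) ^ 2‖ ≤ ‖z - w‖ ^ 2 := by
    refine ((norm_sum_le _ _).trans (le_of_eq ?_)).trans hB
    refine Finset.sum_congr rfl fun j _ => ?_
    rw [norm_pow]
  rw [norm_mul, Complex.norm_ofNat] at h5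
  linarith

/-- The admissible function of a real subspace. Notation: `z_j = ⟪e j, z⟫`, `q z = ∑ z_j²`, `H z = 1 - q z`; `‖q z‖ ≤ ∑ ‖z_j‖² ≤ ‖z‖²` (Bessel, `Orthonormal.sum_inner_products_le`).
`holo`: polynomial (`innerSL`). `lo` (`c = 1`): `‖1 - q‖ ≥ 1 - ‖q‖ ≥ 1 - ‖z‖²`. `up`: `‖H‖ ≤ 2`.
`tri`: `q z - q w = 2 ∑ w_j (z_j - w_j) + ∑ (z_j - w_j)²`, the last sum is `≤ ‖z - w‖² ≤ 2 ‖1 - ⟪w, z⟫‖` (`‖z - w‖² = ‖z‖² + ‖w‖² - 2 Re ⟪w, z⟫ ≤ 2 Re (1 - ⟪w, z⟫)`). Let `w_j = a_j + i b_j`: `w_j = conj w_j + 2 i b_j`, so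
`∑ w_j (z_j - w_j) = ∑ conj w_j (z_j - w_j) + 2 i ∑ b_j (z_j - w_j)`; `∑ b_j² ≤ Re (H w)/2 ≤ ‖H w‖/2` (`Re H w = 1 - ∑ a_j² + ∑ b_j² ≥ 2 ∑ b_j²` as `∑ a_j² + ∑ b_j² ≤ 1`), so `‖2 i ∑ b_j (z_j - w_j)‖ ≤ ∑ b_j² + ‖z - w‖²` (Cauchy-Schwarz);
`∑ conj w_j (z_j - w_j) = ⟪w, z - w⟫ - ⟪w - Q w, z - w⟫`, `Q w = ∑ w_j e_j`: `‖⟪w, z - w⟫‖ ≤ ‖1 - ⟪w, z⟫‖ + (1 - ‖w‖²)`, `1 - ‖w‖² ≤ ‖H w‖`, and `‖⟪w - Q w, z - w⟫‖ ≤ (‖w - Q w‖² + ‖z - w‖²)/2`, `‖w - Q w‖² = ‖w‖² - ∑ ‖w_j‖² ≤ 1 - ‖q w‖ ≤ ‖H w‖`. So `‖H z‖ ≤ 20 (‖H w‖ + ‖1 - ⟪w, z⟫‖)`.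
Last: `w = ∑ t j • e j` with real `t`: `w_j = t j`, `H w = 1 - ‖w‖² ≤ 2 ‖1 - ⟪w, z⟫‖`, and `tri`. -/
theorem real_adm {k : ℕ} {e : Fin k → E} (he : Orthonormal ℂ e) :
    Adm 1 20 (fun z => 1 - ∑ j, ⟪e j, z⟫_ℂ ^ 2) ∧
      ∀ t : Fin k → ℝ, ‖∑ j, ((t j : ℝ) : ℂ) • e j‖ < 1 → ∀ z ∈ ball (0 : E) 1,
        ‖1 - ∑ j, ⟪e j, z⟫_ℂ ^ 2‖ ≤ 60 * ‖1 - ⟪∑ j, ((t j : ℝ) : ℂ) • e j, z⟫_ℂ‖ := by
  have hlo : ∀ z ∈ ball (0 : E) 1, 1 * (1 - ‖z‖ ^ 2) ≤ ‖1 - ∑ j, ⟪e j, z⟫_ℂ ^ 2‖ := by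
    intro z hz
    have h1 := norm_sub_norm_le (1 : ℂ) (∑ j, ⟪e j, z⟫_ℂ ^ 2)
    rw [norm_one] at h1
    have h2 := K8_q_le e z
    have h3 := K8_bessel he z
    linarith
  refine ⟨⟨?_, hlo, ?_, ?_⟩, ?_⟩
  · have h1 : Differentiable ℂ (fun z : E => 1 - ∑ j, ⟪e j, z⟫_ℂ ^ 2) := by
      refine (differentiable_const _).sub ?_
      refine Differentiable.fun_sum fun j _ => ?_
      exact ((innerSL ℂ (e j)).differentiable).pow 2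
    exact h1.differentiableOn
  · intro z hz
    have hz1 : ‖z‖ < 1 := by simpa using hz
    have h1 := norm_sub_le (1 : ℂ) (∑ j, ⟪e j, z⟫_ℂ ^ 2)
    rw [norm_one] at h1
    have h2 := K8_q_le e z
    have h3 := K8_bessel he z
    nlinarith [norm_nonneg z]
  · intro z hz w hw
    exact K8_tri he hz hw
  · intro t ht z hz
    set w : E := ∑ j, ((t j : ℝ) : ℂ) • e j with hwdef
    have hw : w ∈ ball (0 : E) 1 := by simpa using ht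
    have hz1 : ‖z‖ < 1 := by simpa using hz
    have hwj : ∀ j, ⟪e j, w⟫_ℂ = ((t j : ℝ) : ℂ) := by
      intro j
      rw [hwdef]
      exact he.inner_right_sum (fun i => ((t i : ℝ) : ℂ)) (Finset.mem_univ j)
    have hH : 1 - ∑ j, ⟪e j, w⟫_ℂ ^ 2 = ((1 - ‖w‖ ^ 2 : ℝ) : ℂ) := by
      have h1 : ‖w‖ ^ 2 = ∑ j, t j ^ 2 := by
        have h2 : ⟪w, w⟫_ℂ = ((∑ j, t j ^ 2 : ℝ) : ℂ) := by
          rw [hwdef, he.inner_sum, Complex.ofReal_sum]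
          refine Finset.sum_congr rfl fun j _ => ?_
          rw [Complex.conj_ofReal]
          push_cast
          ring
        rw [← inner_self_eq_norm_sq (𝕜 := ℂ), h2]
        exact Complex.ofReal_re _
      rw [h1]
      push_cast
      congr 1
      refine Finset.sum_congr rfl fun j _ => ?_
      rw [hwj]
    have hD : 1 - ‖w‖ ^ 2 ≤ 2 * ‖1 - ⟪w, z⟫_ℂ‖ := by
      have h1 := norm_sub_norm_le (1 : ℂ) ⟪w, z⟫_ℂ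
      rw [norm_one] at h1
      have h2 := norm_inner_le_norm (𝕜 := ℂ) w z
      have h3 : ‖w‖ * ‖z‖ ≤ ‖w‖ * 1 := mul_le_mul_of_nonneg_left hz1.le (norm_nonneg w)
      nlinarith [norm_nonneg w]
    have h4 := K8_tri he hz hw
    rw [hH, Complex.norm_real, Real.norm_eq_abs, abs_of_nonneg (by nlinarith [norm_nonneg w])] at h4
    linarith

end Pool.Agent.MPca0fc2.TK
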