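import Mathlib
import Pool.Agent.Lib.MP_ca0fc2_an.TK.Defs

set_option autoImplicit false
set_option linter.unusedSectionVars false

open Metric Set MeasureTheory Filter Topology
open scoped InnerProductSpace ENNReal ContDiff

namespace Pool.Agent.MPca0fc2.TK

variable {E : Type*} [NormedAddCommGroup E] [InnerProductSpace ℂ E]

private theorem N2_re {x z : E} (hx : ‖x‖ = 1) (hz : z ∈ ball (0 : E) 1) : 0 < (1 - ⟪x, z⟫_ℂ).re := by
  have h1 : ‖⟪x, z⟫_ℂ‖ ≤ ‖x‖ * ‖z‖ := norm_inner_le_norm x z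
  have h2 : ‖z‖ < 1 := by simpa using hz
  have h3 : (⟪x, z⟫_ℂ).re ≤ ‖⟪x, z⟫_ℂ‖ := Complex.re_le_norm _
  rw [hx, one_mul] at h1
  rw [Complex.sub_re, Complex.one_re]
  linarith

private theorem N2_norm {v : ℂ} {r : ℝ} (hr : 0 < r) (hv : 0 < v.re) :
    r ≤ ‖(r : ℂ) + v‖ ∧ ‖v‖ ≤ ‖(r : ℂ) + v‖ ∧ ‖(r : ℂ) + v‖ ≤ r + ‖v‖ := by
  have h1 : ((r : ℂ) + v).re = r + v.re := by simp
  have h2 : ((r : ℂ) + v).im = v.im := by simp
  refine ⟨?_, ?_, ?_⟩
  · have := Complex.re_le_norm ((r : ℂ) + v)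
    rw [h1] at this
    linarith
  · rw [Complex.norm_eq_sqrt_sq_add_sq, Complex.norm_eq_sqrt_sq_add_sq, h1, h2]
    refine Real.sqrt_le_sqrt ?_
    nlinarith
  · refine (norm_add_le _ _).trans ?_
    rw [Complex.norm_real, Real.norm_eq_abs, abs_of_pos hr]

private theorem N2_q {v : ℂ} {r : ℝ} (hr : 0 < r) (hv : 0 < v.re) : 0 < ((r : ℂ) / ((r : ℂ) + v)).re := by
  have h1 : ((r : ℂ) + v).re = r + v.re := by simp
  have h0 : 0 < ((r : ℂ) + v).re := by rw [h1]; linarith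
  have hne : (r : ℂ) + v ≠ 0 := by
    intro h
    rw [h] at h0
    simp at h0
  have hn : 0 < Complex.normSq ((r : ℂ) + v) := Complex.normSq_pos.2 hne
  rw [Complex.div_re, Complex.ofReal_re, Complex.ofReal_im, zero_mul, zero_div, add_zero]
  positivity

/-- One term. `w = 1 + r - ⟪x, z⟫`, `Re w ≥ r > 0` and `Re w > 0`; `r ≤ ‖w‖`, `‖1 - ⟪x, z⟫‖ ≤ ‖w‖` (as `Re (1 - ⟪x, z⟫) ≥ 0`), `‖w‖ ≤ r + ‖1 - ⟪x, z⟫‖`. So `r / w` has a positive real part, `‖tm‖ = (r/‖w‖)^α`, and the argument of `tm` is `α arg (r/w)`,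
`|arg (r/w)| < π/2`, so `Re tm = ‖tm‖ cos (α arg) ≥ ‖tm‖ cos (α π/2)` (`Complex.cpow_def_of_ne_zero`, `Complex.exp_re`-type formulas; `Real.cos_le_cos_of_nonneg_of_le_pi`). Holomorphic in `z`: `cpow` on the slit plane. -/
theorem tm_facts {α : ℝ} (hα0 : 0 < α) (hα1 : α < 1) {r : ℝ} (hr : 0 < r) {x : E} (hx : ‖x‖ = 1) :
    DifferentiableOn ℂ (tm α r x) (ball 0 1) ∧ ∀ z ∈ ball (0 : E) 1,
      ‖tm α r x z‖ ≤ 1 ∧ ‖tm α r x z‖ ≤ (r / ‖1 - ⟪x, z⟫_ℂ‖) ^ α ∧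
      (r / (r + ‖1 - ⟪x, z⟫_ℂ‖)) ^ α ≤ ‖tm α r x z‖ ∧
      Real.cos (α * (Real.pi / 2)) * ‖tm α r x z‖ ≤ (tm α r x z).re := by
  have hw : ∀ z : E, (1 : ℂ) + r - ⟪x, z⟫_ℂ = (r : ℂ) + (1 - ⟪x, z⟫_ℂ) := fun z => by ring
  refine ⟨?_, ?_⟩
  · have hin : Differentiable ℂ fun z : E => ⟪x, z⟫_ℂ := (innerSL ℂ x).differentiable
    have h1 : DifferentiableOn ℂ (fun z : E => (r : ℂ) / (1 + r - ⟪x, z⟫_ℂ)) (ball (0 : E) 1) := by
      have ha : DifferentiableOn ℂ (fun z : E => (1 : ℂ) + r - ⟪x, z⟫_ℂ) (ball (0 : E) 1) :=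
        ((differentiable_const ((1 : ℂ) + r)).sub hin).differentiableOn
      have hb := ha.inv (fun z hz h => by
        rw [hw] at h
        have h2 := N2_re hx hz
        have h3 : ((r : ℂ) + (1 - ⟪x, z⟫_ℂ)).re = r + (1 - ⟪x, z⟫_ℂ).re := by simp
        rw [h, Complex.zero_re] at h3
        linarith)
      have hc := hb.const_mul (r : ℂ)
      refine hc.congr fun z _ => ?_
      rw [div_eq_mul_inv]
      rfl
    show DifferentiableOn ℂ (fun z : E => ((r : ℂ) / (1 + r - ⟪x, z⟫_ℂ)) ^ (α : ℂ)) (ball 0 1)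
    refine DifferentiableOn.cpow h1 (differentiableOn_const (c := (α : ℂ))) ?_
    intro z hz
    refine Or.inl ?_
    show 0 < ((r : ℂ) / (1 + r - ⟪x, z⟫_ℂ)).re
    rw [hw]
    exact N2_q hr (N2_re hx hz)
  · intro z hz
    have hv := N2_re hx hz
    obtain ⟨k1, k2, k3⟩ := N2_norm hr hv
    have hq := N2_q hr hv
    have htm : tm α r x z = ((r : ℂ) / ((r : ℂ) + (1 - ⟪x, z⟫_ℂ))) ^ (α : ℂ) := by
      rw [tm, hw]
    have hv0 : 0 < ‖1 - ⟪x, z⟫_ℂ‖ := by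
      refine norm_pos_iff.2 fun h => ?_
      rw [h] at hv
      simp at hv
    set v : ℂ := 1 - ⟪x, z⟫_ℂ with hvdef
    set q : ℂ := (r : ℂ) / ((r : ℂ) + v) with hqdef
    have hw0 : 0 < ‖(r : ℂ) + v‖ := lt_of_lt_of_le hr k1
    have hqn : ‖q‖ = r / ‖(r : ℂ) + v‖ := by
      rw [hqdef, norm_div, Complex.norm_real, Real.norm_eq_abs, abs_of_pos hr]
    have hq0 : q ≠ 0 := by
      intro h
      rw [h] at hq
      simp at hq
    have hn : ‖tm α r x z‖ = ‖q‖ ^ α := by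
      rw [htm, Complex.norm_cpow_real]
    refine ⟨?_, ?_, ?_, ?_⟩
    · rw [hn]
      refine Real.rpow_le_one (norm_nonneg _) ?_ hα0.le
      rw [hqn]
      exact (div_le_one hw0).2 k1
    · rw [hn]
      refine Real.rpow_le_rpow (norm_nonneg _) ?_ hα0.le
      rw [hqn]
      exact div_le_div_of_nonneg_left hr.le hv0 k2
    · rw [hn]
      refine Real.rpow_le_rpow (by positivity) ?_ hα0.le
      rw [hqn]
      exact div_le_div_of_nonneg_left hr.le hw0 k3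
    · rw [hn, htm, Complex.cpow_def_of_ne_zero hq0, Complex.exp_re]
      have e1 : (Complex.log q * (α : ℂ)).re = Real.log ‖q‖ * α := by
        rw [Complex.re_mul_ofReal, Complex.log_re]
      have e2 : (Complex.log q * (α : ℂ)).im = q.arg * α := by
        rw [Complex.im_mul_ofReal, Complex.log_im]
      rw [e1, e2, ← Real.rpow_def_of_pos (norm_pos_iff.2 hq0), mul_comm]
      refine mul_le_mul_of_nonneg_left ?_ (Real.rpow_nonneg (norm_nonneg _) _)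
      rw [← Real.cos_abs (q.arg * α)]
      have h5 : |q.arg| ≤ Real.pi / 2 := Complex.abs_arg_le_pi_div_two_iff.2 hq.le
      refine Real.cos_le_cos_of_nonneg_of_le_pi (abs_nonneg _) ?_ ?_
      · have := Real.pi_pos
        nlinarith
      · rw [abs_mul, abs_of_pos hα0, mul_comm]
        exact mul_le_mul_of_nonneg_left h5 hα0.le

end Pool.Agent.MPca0fc2.TK
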