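import Mathlib
import Pool.Agent.Lib.MP_ca0fc2_an.TK.N1
import Pool.Agent.Lib.MP_ca0fc2_an.TK.N2

set_option autoImplicit false
set_option linter.unusedSectionVars false

open Metric Set MeasureTheory Filter Topology
open scoped InnerProductSpace ENNReal ContDiff

namespace Pool.Agent.MPca0fc2.TK

variable {E : Type*} [NormedAddCommGroup E] [InnerProductSpace ℂ E]

/-- The sum over a net. `D = infDist`-like: `D` is any number with `0 < D`, `D ≤ ‖1 - ⟪ζ, z⟫‖` for all `ζ ∈ K` and `‖1 - ⟪ζ₀, z⟫‖ ≤ 2 D` for some `ζ₀ ∈ K`. Proof. Let `T = max D r`. For `t ≥ T` the points `x ∈ S` with `‖1 - ⟪x, z⟫‖ < t` satisfy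
`‖1 - ⟪x, ζ₀⟫‖ ≤ 2 (t + 2 D) ≤ 6 t` (`qtri`, strictly less), so there are at most `C (6 t/r)^β` of them (`Hom`). The `x ∈ S` with `‖1 - ⟪x, z⟫‖ < T`: none if `T = D`; if `T = r` at most `C 6^β`, each term is `≤ 1`. The `x` with `2^i T ≤ ‖1 - ⟪x, z⟫‖ < 2^(i+1) T`, `i ≥ 0`:
at most `C (6 2^(i+1) T/r)^β`, each term is `≤ (r/(2^i T))^α` (`tm_facts`). The sum is `≤ C 6^β (r/T)^(α-β) + C 12^β (r/T)^(α-β) ∑ 2^(-i (α - β))` (geometric series; finitely many `i`, as `‖1 - ⟪x, z⟫‖ ≤ 2`). -/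
theorem net_sum {α β C : ℝ} (hβ0 : 0 ≤ β) (hβα : β < α) (hα1 : α < 1) (hC : 0 < C) :
    ∃ C' : ℝ, 0 < C' ∧ ∀ K : Set E, Hom β C K → K ⊆ sphere 0 1 → ∀ r : ℝ, 0 < r → ∀ S : Finset E,
      (S : Set E) ⊆ K → (∀ x ∈ S, ∀ y ∈ S, x ≠ y → r ≤ ‖1 - ⟪x, y⟫_ℂ‖) →
      ∀ z ∈ ball (0 : E) 1, ∀ D : ℝ, 0 < D → (∀ ζ ∈ K, D ≤ ‖1 - ⟪ζ, z⟫_ℂ‖) →
      (∃ ζ ∈ K, ‖1 - ⟪ζ, z⟫_ℂ‖ ≤ 2 * D) →
        ∑ x ∈ S, ‖tm α r x z‖ ≤ C' * (r / max D r) ^ (α - β) := by
  classical
  set ρ : ℝ := (2 : ℝ) ^ (β - α) with hρ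
  have hρ0 : 0 < ρ := Real.rpow_pos_of_pos (by norm_num) _
  have hρ1 : ρ < 1 := Real.rpow_lt_one_of_one_lt_of_neg (by norm_num) (by linarith)
  have h6 : (0 : ℝ) < 6 ^ β := Real.rpow_pos_of_pos (by norm_num) _
  have hα0 : 0 < α := by linarith
  refine ⟨2 * C * 6 ^ β * (1 - ρ)⁻¹, by have : 0 < 1 - ρ := by linarith
                                        positivity, ?_⟩
  intro K hK hKs r hr S hSK hSr z hz D hD hDK hζ
  obtain ⟨ζ₀, hζ₀, hζD⟩ := hζ
  set T : ℝ := max D r with hT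
  have hDT : D ≤ T := le_max_left _ _
  have hrT : r ≤ T := le_max_right _ _
  have hT0 : 0 < T := lt_of_lt_of_le hD hDT
  have hz1 : ‖z‖ ≤ 1 := by
    rw [mem_ball_zero_iff] at hz
    exact hz.le
  have hn1 : ∀ x ∈ K, ‖x‖ = 1 := fun x hx => mem_sphere_zero_iff_norm.1 (hKs hx)
  have hsymm : ∀ x y : E, ‖1 - ⟪x, y⟫_ℂ‖ = ‖1 - ⟪y, x⟫_ℂ‖ := by
    intro x y
    rw [← inner_conj_symm x y, ← Complex.norm_conj (1 - (starRingEnd ℂ) ⟪y, x⟫_ℂ)]
    simp
  -- counting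
  have hcount : ∀ t : ℝ, T ≤ t → ((S.filter fun x => ‖1 - ⟪x, z⟫_ℂ‖ < t).card : ℝ) ≤ C * (6 * t / r) ^ β := by
    intro t ht
    apply hK ζ₀ hζ₀ r (6 * t) hr (by linarith)
    · intro x hx
      exact hSK (Finset.mem_coe.2 (Finset.mem_filter.1 (Finset.mem_coe.1 hx)).1)
    · intro x hx
      obtain ⟨hxS, hxt⟩ := Finset.mem_filter.1 hx
      have h1 := qtri (x := x) (y := z) (z := ζ₀) (hn1 x (hSK (Finset.mem_coe.2 hxS))).le hz1 (hn1 ζ₀ hζ₀).le
      rw [hsymm z ζ₀] at h1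
      linarith
    · intro x hx y hy hxy
      exact hSr x (Finset.mem_filter.1 hx).1 y (Finset.mem_filter.1 hy).1 hxy
  -- the index
  have hex : ∀ x : E, ∃ i : ℕ, ‖1 - ⟪x, z⟫_ℂ‖ < 2 ^ i * T := by
    intro x
    obtain ⟨n, hn⟩ := pow_unbounded_of_one_lt (‖1 - ⟪x, z⟫_ℂ‖ / T) (by norm_num : (1 : ℝ) < 2)
    refine ⟨n, ?_⟩
    rwa [div_lt_iff₀ hT0] at hn
  let idx : E → ℕ := fun x => Nat.find (hex x)
  have hidx1 : ∀ x, ‖1 - ⟪x, z⟫_ℂ‖ < 2 ^ (idx x) * T := fun x => Nat.find_spec (hex x)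
  have hidx2 : ∀ x, ∀ i, i < idx x → 2 ^ i * T ≤ ‖1 - ⟪x, z⟫_ℂ‖ := fun x i hi => not_lt.1 (Nat.find_min (hex x) hi)
  -- the terms
  have hterm : ∀ x ∈ S, ‖tm α r x z‖ ≤ 2 * (r / (2 ^ (idx x) * T)) ^ α := by
    intro x hx
    have hxK := hSK (Finset.mem_coe.2 hx)
    obtain ⟨h1, h2, _, _⟩ := (tm_facts hα0 hα1 hr (hn1 x hxK)).2 z hz
    have h2α : (2 : ℝ) ^ α ≤ 2 := by
      calc (2 : ℝ) ^ α ≤ 2 ^ (1 : ℝ) := Real.rpow_le_rpow_of_exponent_le (by norm_num) hα1.le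
        _ = 2 := Real.rpow_one 2
    rcases Nat.eq_zero_or_pos (idx x) with h0 | hpos
    · have h3 := hidx1 x
      rw [h0] at h3 ⊢
      rw [pow_zero, one_mul] at h3 ⊢
      have h4 := hDK x hxK
      have hTr : T = r := by
        rcases max_choice D r with h | h
        · rw [← hT] at h
          rw [h] at h3
          linarith
        · rw [← hT] at h
          exact h
      rw [hTr, div_self hr.ne', Real.one_rpow]
      linarith
    · have h3 := hidx2 x (idx x - 1) (by omega)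
      have hq : 0 < 2 ^ (idx x - 1) * T := by positivity
      have h5 : (r / ‖1 - ⟪x, z⟫_ℂ‖) ^ α ≤ (2 * (r / (2 ^ (idx x) * T))) ^ α := by
        apply Real.rpow_le_rpow (by positivity) _ hα0.le
        have h6 : 2 * (r / (2 ^ (idx x) * T)) = r / (2 ^ (idx x - 1) * T) := by
          have h7 : (2 : ℝ) ^ (idx x) = 2 * 2 ^ (idx x - 1) := by
            rw [← pow_succ']
            congr 1
            omega
          rw [h7]
          field_simp
        rw [h6]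
        exact div_le_div_of_nonneg_left hr.le hq h3
      rw [Real.mul_rpow (by norm_num) (by positivity)] at h5
      refine h2.trans (h5.trans ?_)
      exact mul_le_mul_of_nonneg_right h2α (by positivity)
  set M : ℕ := S.sup idx + 1 with hM
  have hsum : ∑ x ∈ S, ‖tm α r x z‖ = ∑ i ∈ Finset.range M, ∑ x ∈ S.filter (fun x => idx x = i), ‖tm α r x z‖ := by
    symm
    apply Finset.sum_fiberwise_of_maps_to
    intro x hx
    rw [Finset.mem_range, hM]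
    exact Nat.lt_succ_of_le (Finset.le_sup hx)
  rw [hsum]
  have hlayer : ∀ i ∈ Finset.range M, ∑ x ∈ S.filter (fun x => idx x = i), ‖tm α r x z‖ ≤
      2 * C * 6 ^ β * (r / T) ^ (α - β) * ρ ^ i := by
    intro i _
    have hy : 0 < 2 ^ i * T / r := by positivity
    have h1 : ∑ x ∈ S.filter (fun x => idx x = i), ‖tm α r x z‖ ≤
        ((S.filter (fun x => idx x = i)).card : ℝ) * (2 * (r / (2 ^ i * T)) ^ α) := by
      rw [← nsmul_eq_mul]
      apply Finset.sum_le_card_nsmul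
      intro x hx
      obtain ⟨hxS, hxi⟩ := Finset.mem_filter.1 hx
      have := hterm x hxS
      rwa [hxi] at this
    have h2 : ((S.filter (fun x => idx x = i)).card : ℝ) ≤ C * (6 * (2 ^ i * T) / r) ^ β := by
      refine le_trans ?_ (hcount (2 ^ i * T) ?_)
      · have : (S.filter (fun x => idx x = i)).card ≤ (S.filter fun x => ‖1 - ⟪x, z⟫_ℂ‖ < 2 ^ i * T).card := by
          apply Finset.card_le_card
          intro x hx
          obtain ⟨hxS, hxi⟩ := Finset.mem_filter.1 hx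
          refine Finset.mem_filter.2 ⟨hxS, ?_⟩
          have := hidx1 x
          rwa [hxi] at this
        exact_mod_cast this
      · have : (1 : ℝ) ≤ 2 ^ i := one_le_pow₀ (by norm_num)
        nlinarith
    refine h1.trans ((mul_le_mul_of_nonneg_right h2 (by positivity)).trans (le_of_eq ?_))
    set y : ℝ := 2 ^ i * T / r with hydef
    have e1 : 6 * (2 ^ i * T) / r = 6 * y := by rw [hydef]; ring
    have e2 : r / (2 ^ i * T) = y⁻¹ := by rw [hydef, inv_div]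
    have e3 : y ^ (β - α) = ρ ^ i * (r / T) ^ (α - β) := by
      have e4 : y = 2 ^ i * (T / r) := by rw [hydef]; ring
      rw [e4, Real.mul_rpow (by positivity) (by positivity)]
      congr 1
      · rw [hρ, ← Real.rpow_natCast, ← Real.rpow_natCast, ← Real.rpow_mul (by norm_num), ← Real.rpow_mul (by norm_num), mul_comm]
      · rw [← inv_div r T, Real.inv_rpow (by positivity), ← Real.rpow_neg (by positivity), neg_sub]
    rw [e1, e2, Real.mul_rpow (by norm_num) hy.le, Real.inv_rpow hy.le, ← Real.rpow_neg hy.le]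
    have e5 : y ^ β * y ^ (-α) = y ^ (β - α) := by
      rw [← Real.rpow_add hy]; rfl
    calc C * (6 ^ β * y ^ β) * (2 * y ^ (-α)) = 2 * C * 6 ^ β * (y ^ β * y ^ (-α)) := by ring
      _ = 2 * C * 6 ^ β * (r / T) ^ (α - β) * ρ ^ i := by rw [e5, e3]; ring
  refine (Finset.sum_le_sum hlayer).trans ?_
  rw [← Finset.mul_sum]
  have hgeo : ∑ i ∈ Finset.range M, ρ ^ i ≤ (1 - ρ)⁻¹ := by
    rw [← tsum_geometric_of_lt_one hρ0.le hρ1]
    exact (summable_geometric_of_lt_one hρ0.le hρ1).sum_le_tsum _ (fun i _ => by positivity)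
  calc 2 * C * 6 ^ β * (r / T) ^ (α - β) * ∑ i ∈ Finset.range M, ρ ^ i
      ≤ 2 * C * 6 ^ β * (r / T) ^ (α - β) * (1 - ρ)⁻¹ := mul_le_mul_of_nonneg_left hgeo (by positivity)
    _ = 2 * C * 6 ^ β * (1 - ρ)⁻¹ * (r / T) ^ (α - β) := by ring

end Pool.Agent.MPca0fc2.TK
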