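import Mathlib
import Pool.Agent.Lib.MP_ca0fc2_an.TK.N3

set_option autoImplicit false
set_option linter.unusedSectionVars false

open Metric Set MeasureTheory Filter Topology
open scoped InnerProductSpace ENNReal ContDiff

namespace Pool.Agent.MPca0fc2.TK

variable {E : Type*} [NormedAddCommGroup E] [InnerProductSpace ℂ E]

private theorem N4_pow (s : ℝ) (k : ℕ) : (((1 : ℝ) / 2) ^ k) ^ (-s) = ((2 : ℝ) ^ s) ^ k := by
  rw [← Real.rpow_natCast, ← Real.rpow_natCast, ← Real.rpow_mul (by norm_num),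
    ← Real.rpow_mul (by norm_num), one_div, Real.inv_rpow (by norm_num), ← Real.rpow_neg (by norm_num)]
  congr 1
  ring

private theorem N4_cauchy {f : E → ℂ} {z : E} {R M : ℝ} (hR : 0 < R)
    (hf : DifferentiableOn ℂ f (ball z R)) (hM : ∀ w ∈ ball z R, ‖f w‖ ≤ M) :
    ‖fderiv ℂ f z‖ ≤ M / (R / 2) := by
  have hM0 : 0 ≤ M := le_trans (norm_nonneg _) (hM z (mem_ball_self hR))
  refine ContinuousLinearMap.opNorm_le_bound _ (by positivity) fun v => ?_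
  by_cases hv : v = 0
  · subst hv
    simp
  have hv0 : 0 < ‖v‖ := norm_pos_iff.2 hv
  set ρ : ℝ := R / (2 * ‖v‖) with hρ
  have hρ0 : 0 < ρ := by positivity
  have hmaps : ∀ t : ℂ, ‖t‖ ≤ ρ → z + t • v ∈ ball z R := by
    intro t ht
    rw [mem_ball, dist_eq_norm, add_sub_cancel_left, norm_smul]
    calc ‖t‖ * ‖v‖ ≤ ρ * ‖v‖ := by gcongr
      _ = R / 2 := by rw [hρ]; field_simp
      _ < R := by linarith
  have hlin : ∀ t : ℂ, HasDerivAt (fun t : ℂ => z + t • v) v t := by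
    intro t
    simpa using ((hasDerivAt_id t).smul_const v).const_add z
  have hfd : ∀ t : ℂ, ‖t‖ ≤ ρ → HasDerivAt (fun t : ℂ => f (z + t • v))
      (fderiv ℂ f (z + t • v) v) t := by
    intro t ht
    have h1 : HasFDerivAt f (fderiv ℂ f (z + t • v)) (z + t • v) :=
      ((hf _ (hmaps t ht)).differentiableAt (isOpen_ball.mem_nhds (hmaps t ht))).hasFDerivAt
    exact h1.comp_hasDerivAt t (hlin t)
  have hd : DiffContOnCl ℂ (fun t : ℂ => f (z + t • v)) (ball 0 ρ) := by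
    apply DifferentiableOn.diffContOnCl
    rw [closure_ball _ hρ0.ne']
    intro t ht
    exact (hfd t (by simpa using ht)).differentiableAt.differentiableWithinAt
  have h2 := Complex.norm_deriv_le_of_forall_mem_sphere_norm_le hρ0 hd (C := M) (by
    intro t ht
    exact hM _ (hmaps t (by simpa using (mem_sphere.1 ht).le)))
  have h3 : deriv (fun t : ℂ => f (z + t • v)) 0 = fderiv ℂ f z v := by
    have := (hfd 0 (by simpa using hρ0.le)).deriv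
    simpa using this
  rw [h3] at h2
  calc ‖fderiv ℂ f z v‖ ≤ M / ρ := h2
    _ = M / (R / 2) * ‖v‖ := by rw [hρ]; field_simp

/-- locally uniformly summable series of holomorphic functions -/
private theorem N4_tsum {f : ℕ → E → ℂ} {U : Set E} (hU : IsOpen U)
    (hf : ∀ k, DifferentiableOn ℂ (f k) U)
    (hb : ∀ z ∈ U, ∃ R > 0, ball z R ⊆ U ∧ ∃ u : ℕ → ℝ, Summable u ∧ ∀ k, ∀ w ∈ ball z R, ‖f k w‖ ≤ u k) :
    DifferentiableOn ℂ (fun z => ∑' k, f k z) U := by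
  intro z hz
  obtain ⟨R, hR, hsub, u, hu, hfu⟩ := hb z hz
  have hR2 : 0 < R / 2 := by positivity
  have hball : ∀ w ∈ ball z (R / 2), ball w (R / 2) ⊆ ball z R := by
    intro w hw y hy
    rw [mem_ball] at *
    calc dist y z ≤ dist y w + dist w z := dist_triangle _ _ _
      _ < R / 2 + R / 2 := by linarith
      _ = R := by ring
  have h1 : HasFDerivAt (fun y => ∑' n, f n y) (∑' n, fderiv ℂ (f n) z) z := by
    refine hasFDerivAt_tsum_of_isPreconnected (𝕜 := ℂ) (u := fun k => u k / (R / 2 / 2))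
      (s := ball z (R / 2)) (x₀ := z) (hu.div_const _) isOpen_ball
      (convex_ball z (R / 2)).isPreconnected ?_ ?_ (mem_ball_self hR2) ?_ (mem_ball_self hR2)
    · intro n x hx
      have hxU : x ∈ U := hsub (hball x hx (mem_ball_self hR2))
      exact ((hf n x hxU).differentiableAt (hU.mem_nhds hxU)).hasFDerivAt
    · intro n x hx
      exact N4_cauchy hR2 ((hf n).mono ((hball x hx).trans hsub))
        (fun w hw => hfu n w (hball x hx hw))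
    · exact Summable.of_norm_bounded hu fun k => hfu k z (mem_ball_self hR)
  exact h1.differentiableAt.differentiableWithinAt

private theorem N4_sum {s D : ℝ} (hs : 0 < s) (hD : 0 < D) (hD2 : D ≤ 2) (N : ℕ) :
    ∑ k ∈ Finset.range N, ((2 : ℝ) ^ s) ^ k * (((1 : ℝ) / 2) ^ k / max D (((1 : ℝ) / 2) ^ k)) ^ (2 * s) ≤
      2 * ((2 : ℝ) ^ s) / ((2 : ℝ) ^ s - 1) * D ^ (-s) := by
  set b : ℝ := (2 : ℝ) ^ s with hb
  have hb1 : 1 < b := Real.one_lt_rpow (by norm_num) hs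
  have hb0 : 0 < b := by linarith
  have hbm : 0 < b - 1 := by linarith
  obtain ⟨n, hn1, hn2⟩ := exists_nat_pow_near_of_lt_one (x := D / 2) (y := (1 : ℝ) / 2) (by positivity)
    (by linarith) (by norm_num) (by norm_num)
  have hr1 : ((1 : ℝ) / 2) ^ n < D := by
    rw [pow_succ] at hn1
    linarith
  have hrpos : ∀ k : ℕ, (0 : ℝ) < ((1 : ℝ) / 2) ^ k := fun k => by positivity
  -- bounds of the terms
  have hu1 : ∀ k : ℕ, b ^ k * (((1 : ℝ) / 2) ^ k / max D (((1 : ℝ) / 2) ^ k)) ^ (2 * s) ≤ b ^ k := by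
    intro k
    have h0 : (((1 : ℝ) / 2) ^ k / max D (((1 : ℝ) / 2) ^ k)) ≤ 1 :=
      div_le_one_of_le₀ (le_max_right _ _) (le_max_of_le_right (hrpos k).le)
    have h1 : (((1 : ℝ) / 2) ^ k / max D (((1 : ℝ) / 2) ^ k)) ^ (2 * s) ≤ 1 :=
      Real.rpow_le_one (div_nonneg (hrpos k).le (le_max_of_le_right (hrpos k).le)) h0 (by linarith)
    calc _ ≤ b ^ k * 1 := by gcongr
      _ = b ^ k := mul_one _
  have hu2 : ∀ k : ℕ, b ^ k * (((1 : ℝ) / 2) ^ k / max D (((1 : ℝ) / 2) ^ k)) ^ (2 * s) ≤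
      (b ^ k)⁻¹ * D ^ (-(2 * s)) := by
    intro k
    have h1 : (((1 : ℝ) / 2) ^ k / max D (((1 : ℝ) / 2) ^ k)) ^ (2 * s) ≤
        (((1 : ℝ) / 2) ^ k / D) ^ (2 * s) := by
      apply Real.rpow_le_rpow (div_nonneg (hrpos k).le (le_max_of_le_right (hrpos k).le)) _ (by linarith)
      gcongr
      exact le_max_left _ _
    have h2 : (((1 : ℝ) / 2) ^ k / D) ^ (2 * s) = (b ^ k)⁻¹ ^ 2 * D ^ (-(2 * s)) := by
      rw [Real.div_rpow (hrpos k).le hD.le, Real.rpow_neg hD.le, div_eq_mul_inv]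
      congr 1
      rw [hb, ← N4_pow s k, ← Real.rpow_neg (hrpos k).le, neg_neg, mul_comm 2 s,
        Real.rpow_mul (hrpos k).le]
      exact_mod_cast rfl
    calc _ ≤ b ^ k * ((b ^ k)⁻¹ ^ 2 * D ^ (-(2 * s))) := by rw [← h2]; gcongr
      _ = (b ^ k)⁻¹ * D ^ (-(2 * s)) := by
        have : b ^ k ≠ 0 := by positivity
        field_simp
  have hterm0 : ∀ k : ℕ, 0 ≤ b ^ k * (((1 : ℝ) / 2) ^ k / max D (((1 : ℝ) / 2) ^ k)) ^ (2 * s) := by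
    intro k
    have : 0 ≤ (((1 : ℝ) / 2) ^ k / max D (((1 : ℝ) / 2) ^ k)) :=
      div_nonneg (hrpos k).le (le_max_of_le_right (hrpos k).le)
    positivity
  have hbn1 : b ^ n ≤ b * D ^ (-s) := by
    rw [hb, ← N4_pow s n]
    calc (((1 : ℝ) / 2) ^ n) ^ (-s) ≤ (D / 2) ^ (-s) :=
          Real.rpow_le_rpow_of_nonpos (by positivity) hn2 (by linarith)
      _ = 2 ^ s * D ^ (-s) := by
          rw [Real.div_rpow hD.le (by norm_num), Real.rpow_neg (by norm_num : (0:ℝ) ≤ 2)]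
          field_simp
  have hbn2 : (b ^ n)⁻¹ ≤ D ^ s := by
    rw [hb, ← N4_pow s n, ← Real.rpow_neg (hrpos n).le, neg_neg]
    exact Real.rpow_le_rpow (hrpos n).le hr1.le hs.le
  have hgeo : ∀ m : ℕ, ∑ j ∈ Finset.range m, (b ^ j)⁻¹ ≤ b / (b - 1) := by
    intro m
    have hbi : b⁻¹ < 1 := inv_lt_one_of_one_lt₀ hb1
    have h1 : ∑ j ∈ Finset.range m, (b ^ j)⁻¹ ≤ ∑' j : ℕ, (b⁻¹) ^ j := by
      have := (summable_geometric_of_lt_one (by positivity) hbi).sum_le_tsum (Finset.range m)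
        (fun i _ => by positivity)
      simpa [inv_pow] using this
    rw [tsum_geometric_of_lt_one (by positivity) hbi] at h1
    have h2 : (1 - b⁻¹)⁻¹ = b / (b - 1) := by
      field_simp
    rwa [h2] at h1
  calc ∑ k ∈ Finset.range N, b ^ k * (((1 : ℝ) / 2) ^ k / max D (((1 : ℝ) / 2) ^ k)) ^ (2 * s)
      ≤ ∑ k ∈ Finset.range (n + N), b ^ k * (((1 : ℝ) / 2) ^ k / max D (((1 : ℝ) / 2) ^ k)) ^ (2 * s) :=
        Finset.sum_le_sum_of_subset_of_nonneg (Finset.range_mono (by omega)) fun i _ _ => hterm0 i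
    _ = ∑ k ∈ Finset.range n, b ^ k * (((1 : ℝ) / 2) ^ k / max D (((1 : ℝ) / 2) ^ k)) ^ (2 * s) +
        ∑ j ∈ Finset.range N, b ^ (n + j) * (((1 : ℝ) / 2) ^ (n + j) / max D (((1 : ℝ) / 2) ^ (n + j))) ^ (2 * s) :=
        Finset.sum_range_add _ _ _
    _ ≤ ∑ k ∈ Finset.range n, b ^ k + ∑ j ∈ Finset.range N, (b ^ (n + j))⁻¹ * D ^ (-(2 * s)) := by
        exact add_le_add (Finset.sum_le_sum fun k _ => hu1 k) (Finset.sum_le_sum fun j _ => hu2 (n + j))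
    _ = (b ^ n - 1) / (b - 1) + (b ^ n)⁻¹ * D ^ (-(2 * s)) * ∑ j ∈ Finset.range N, (b ^ j)⁻¹ := by
        rw [geom_sum_eq hb1.ne', Finset.mul_sum]
        congr 1
        refine Finset.sum_congr rfl fun j _ => ?_
        rw [pow_add, mul_inv]
        ring
    _ ≤ (b * D ^ (-s)) / (b - 1) + D ^ s * D ^ (-(2 * s)) * (b / (b - 1)) := by
        have hDs : 0 < D ^ (-(2 * s)) := Real.rpow_pos_of_pos hD _
        have hDs' : 0 < D ^ s := Real.rpow_pos_of_pos hD _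
        have h3 : (b ^ n - 1) / (b - 1) ≤ (b * D ^ (-s)) / (b - 1) := by
          gcongr
          linarith
        have h4 : (b ^ n)⁻¹ * D ^ (-(2 * s)) * ∑ j ∈ Finset.range N, (b ^ j)⁻¹ ≤
            D ^ s * D ^ (-(2 * s)) * (b / (b - 1)) := by
          apply mul_le_mul _ (hgeo N) (Finset.sum_nonneg fun i _ => by positivity) (by positivity)
          exact mul_le_mul_of_nonneg_right hbn2 hDs.le
        linarith
    _ = 2 * b / (b - 1) * D ^ (-s) := by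
        rw [← Real.rpow_add hD]
        have : s + -(2 * s) = -s := by ring
        rw [this]
        ring

/-- The function with positive real part which is comparable with `D^(-s)`, `s = (α - β)/2`. Proof. `α = (1 + β)/2`, `r_k = 2^(-k)`, `S_k` a net (`net`) for `r_k`, `F z = ∑' k, 2^(k s) ∑ x ∈ S_k, tm α r_k x z`. By `net_sum` the term `k` is
`≤ C' 2^(k s) (r_k/max D r_k)^(2 s)`; for `z` in the ball `D z = ⨅ ζ ∈ K, ‖1 - ⟪ζ, z⟫‖ ≥ 1 - ‖z‖ > 0` satisfies the hypotheses of `net_sum` (`D ≤ 2`), and `∑ k, 2^(k s) (r_k/max D r_k)^(2 s) ≤ ∑_{r_k ≥ D} 2^(k s) + D^(-2 s) ∑_{r_k < D} 2^(-k s) ≤ const * D^(-s)` (geometric series).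
Locally uniform convergence (on `‖z‖ ≤ ρ < 1` the term `k` is `≤ C' (1 - ρ)^(-2 s) 2^(-k s)`): `F` is holomorphic (pattern: `B7a_tsum`, private in SH/B7a.lean, or `SL.ultra_holo`; for scalar functions). `Re F ≥ cos (α π/2) ∑ ‖..‖` (`tm_facts`), and the lower bound: let `k` be the smallest
number with `r_k ≤ D` (so `r_k ≥ D/2` as `D ≤ 2`), `ζ₀ ∈ K` with `‖1 - ⟪ζ₀, z⟫‖ ≤ 2 D`, `x ∈ S_k` with `‖1 - ⟪x, ζ₀⟫‖ < r_k`: `‖1 - ⟪x, z⟫‖ ≤ 2 (r_k + 2 D) ≤ 6 D`, `‖tm‖ ≥ (r_k/(r_k + 6 D))^α ≥ 1/13`, and `2^(k s) ≥ D^(-s)`. -/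
theorem exists_FF {β C : ℝ} (hβ0 : 0 ≤ β) (hβ1 : β < 1) (hC : 0 < C) :
    ∃ s a A : ℝ, 0 < s ∧ 0 < a ∧ 0 < A ∧ ∀ K : Set E, Hom β C K → K ⊆ sphere 0 1 → K.Nonempty →
      ∃ F : E → ℂ, DifferentiableOn ℂ F (ball 0 1) ∧
        (∀ z ∈ ball (0 : E) 1, ∀ ζ ∈ K, a * ‖1 - ⟪ζ, z⟫_ℂ‖ ^ (-s) ≤ (F z).re) ∧
        ∀ z ∈ ball (0 : E) 1, ∃ ζ ∈ K, ‖F z‖ ≤ A * ‖1 - ⟪ζ, z⟫_ℂ‖ ^ (-s) := by
  set α : ℝ := (1 + β) / 2 with hα
  have hα0 : 0 < α := by rw [hα]; linarith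
  have hα1 : α < 1 := by rw [hα]; linarith
  have hβα : β < α := by rw [hα]; linarith
  set s : ℝ := (α - β) / 2 with hs
  have hs0 : 0 < s := by rw [hs]; linarith
  have h2s : α - β = 2 * s := by rw [hs]; ring
  obtain ⟨C', hC'0, hC'⟩ := net_sum (E := E) (β := β) (α := α) hβ0 hβα hα1 hC
  set b : ℝ := (2 : ℝ) ^ s with hb
  have hb1 : 1 < b := Real.one_lt_rpow (by norm_num) hs0
  have hb0 : 0 < b := by linarith
  have hbm : 0 < b - 1 := by linarith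
  set c₀ : ℝ := Real.cos (α * (Real.pi / 2)) with hc₀
  have hc₀0 : 0 < c₀ := by
    apply Real.cos_pos_of_mem_Ioo
    constructor
    · have := Real.pi_pos
      nlinarith
    · have := Real.pi_pos
      nlinarith
  have hrpos : ∀ k : ℕ, (0 : ℝ) < ((1 : ℝ) / 2) ^ k := fun k => by positivity
  refine ⟨s, c₀ * (1 / 13), C' * (2 * b / (b - 1)) * b, hs0, by positivity, by positivity, ?_⟩
  intro K hK hKs hne
  have hKn : ∀ ζ ∈ K, ‖ζ‖ = 1 := fun ζ hζ => by simpa using hKs hζ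
  choose S hSK hSsep hSnet using fun k : ℕ => net hK hKs hne (hrpos k)
  -- the distance
  have hDex : ∀ z ∈ ball (0 : E) 1, ∃ D : ℝ, 1 - ‖z‖ ≤ D ∧ 0 < D ∧ D ≤ 2 ∧ (∀ ζ ∈ K, D ≤ ‖1 - ⟪ζ, z⟫_ℂ‖) ∧
      ∃ ζ ∈ K, ‖1 - ⟪ζ, z⟫_ℂ‖ ≤ 2 * D := by
    intro z hz
    have hz1 : ‖z‖ < 1 := by simpa using hz
    set T : Set ℝ := (fun ζ => ‖1 - ⟪ζ, z⟫_ℂ‖) '' K with hT
    have hTne : T.Nonempty := hne.image _
    have hlow : ∀ ζ ∈ K, 1 - ‖z‖ ≤ ‖1 - ⟪ζ, z⟫_ℂ‖ := by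
      intro ζ hζ
      have h1 : ‖⟪ζ, z⟫_ℂ‖ ≤ ‖z‖ := by
        have := norm_inner_le_norm (𝕜 := ℂ) ζ z
        rwa [hKn ζ hζ, one_mul] at this
      have h2 : ‖(1 : ℂ)‖ - ‖⟪ζ, z⟫_ℂ‖ ≤ ‖1 - ⟪ζ, z⟫_ℂ‖ := norm_sub_norm_le _ _
      rw [norm_one] at h2
      linarith
    have hTb : ∀ t ∈ T, 1 - ‖z‖ ≤ t := by
      rintro t ⟨ζ, hζ, rfl⟩
      exact hlow ζ hζ
    have hbdd : BddBelow T := ⟨1 - ‖z‖, hTb⟩
    have h1 : 1 - ‖z‖ ≤ sInf T := le_csInf hTne hTb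
    have h2 : 0 < sInf T := by linarith
    have h3 : ∀ ζ ∈ K, sInf T ≤ ‖1 - ⟪ζ, z⟫_ℂ‖ := fun ζ hζ => csInf_le hbdd ⟨ζ, hζ, rfl⟩
    refine ⟨sInf T, h1, h2, ?_, h3, ?_⟩
    · obtain ⟨ζ, hζ⟩ := hne
      have h4 : ‖1 - ⟪ζ, z⟫_ℂ‖ ≤ ‖(1 : ℂ)‖ + ‖⟪ζ, z⟫_ℂ‖ := norm_sub_le _ _
      have h5 : ‖⟪ζ, z⟫_ℂ‖ ≤ ‖z‖ := by
        have := norm_inner_le_norm (𝕜 := ℂ) ζ z
        rwa [hKn ζ hζ, one_mul] at this
      rw [norm_one] at h4
      linarith [h3 ζ hζ]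
    · obtain ⟨t, ⟨ζ, hζ, rfl⟩, ht⟩ := exists_lt_of_csInf_lt hTne (show sInf T < 2 * sInf T by linarith)
      exact ⟨ζ, hζ, ht.le⟩
  -- the terms
  set f : ℕ → E → ℂ := fun k z => ((b ^ k : ℝ) : ℂ) * ∑ x ∈ S k, tm α (((1 : ℝ) / 2) ^ k) x z with hf
  have hxn : ∀ k, ∀ x ∈ S k, ‖x‖ = 1 := fun k x hx => hKn x (hSK k hx)
  have hfd : ∀ k, DifferentiableOn ℂ (f k) (ball 0 1) := by
    intro k
    refine DifferentiableOn.const_mul ?_ _
    have : (fun z => ∑ x ∈ S k, tm α (((1 : ℝ) / 2) ^ k) x z) =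
        ∑ x ∈ S k, tm α (((1 : ℝ) / 2) ^ k) x := by
      funext z
      simp
    rw [this]
    exact DifferentiableOn.sum fun x hx => (tm_facts hα0 hα1 (hrpos k) (hxn k x hx)).1
  have hfn : ∀ k z, ‖f k z‖ ≤ b ^ k * ∑ x ∈ S k, ‖tm α (((1 : ℝ) / 2) ^ k) x z‖ := by
    intro k z
    rw [hf]
    simp only [norm_mul, Complex.norm_real]
    rw [Real.norm_of_nonneg (by positivity)]
    gcongr
    exact norm_sum_le _ _
  have hfre : ∀ k, ∀ z ∈ ball (0 : E) 1,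
      c₀ * (b ^ k * ∑ x ∈ S k, ‖tm α (((1 : ℝ) / 2) ^ k) x z‖) ≤ (f k z).re := by
    intro k z hz
    rw [hf]
    simp only [Complex.re_ofReal_mul, Complex.re_sum]
    rw [← mul_assoc, mul_comm c₀, mul_assoc, Finset.mul_sum]
    gcongr with x hx
    exact ((tm_facts hα0 hα1 (hrpos k) (hxn k x hx)).2 z hz).2.2.2
  have hup : ∀ k, ∀ z ∈ ball (0 : E) 1, ∀ D : ℝ, 0 < D → (∀ ζ ∈ K, D ≤ ‖1 - ⟪ζ, z⟫_ℂ‖) →
      (∃ ζ ∈ K, ‖1 - ⟪ζ, z⟫_ℂ‖ ≤ 2 * D) →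
      b ^ k * ∑ x ∈ S k, ‖tm α (((1 : ℝ) / 2) ^ k) x z‖ ≤
        C' * (b ^ k * (((1 : ℝ) / 2) ^ k / max D (((1 : ℝ) / 2) ^ k)) ^ (2 * s)) := by
    intro k z hz D hD h1 h2
    have h3 := hC' K hK hKs _ (hrpos k) (S k) (hSK k) (hSsep k) z hz D hD h1 h2
    rw [h2s] at h3
    calc _ ≤ b ^ k * (C' * (((1 : ℝ) / 2) ^ k / max D (((1 : ℝ) / 2) ^ k)) ^ (2 * s)) := by gcongr
      _ = _ := by ring
  have hpart : ∀ z ∈ ball (0 : E) 1, ∀ D : ℝ, 0 < D → D ≤ 2 → (∀ ζ ∈ K, D ≤ ‖1 - ⟪ζ, z⟫_ℂ‖) →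
      (∃ ζ ∈ K, ‖1 - ⟪ζ, z⟫_ℂ‖ ≤ 2 * D) → ∀ N : ℕ,
      ∑ k ∈ Finset.range N, b ^ k * ∑ x ∈ S k, ‖tm α (((1 : ℝ) / 2) ^ k) x z‖ ≤
        C' * (2 * b / (b - 1)) * D ^ (-s) := by
    intro z hz D hD hD2 h1 h2 N
    calc _ ≤ ∑ k ∈ Finset.range N,
          C' * (b ^ k * (((1 : ℝ) / 2) ^ k / max D (((1 : ℝ) / 2) ^ k)) ^ (2 * s)) :=
          Finset.sum_le_sum fun k _ => hup k z hz D hD h1 h2
      _ = C' * ∑ k ∈ Finset.range N,
          b ^ k * (((1 : ℝ) / 2) ^ k / max D (((1 : ℝ) / 2) ^ k)) ^ (2 * s) := by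
          rw [Finset.mul_sum]
      _ ≤ C' * (2 * b / (b - 1) * D ^ (-s)) := by
          gcongr
          exact N4_sum hs0 hD hD2 N
      _ = _ := by ring
  have hnn : ∀ z k, 0 ≤ b ^ k * ∑ x ∈ S k, ‖tm α (((1 : ℝ) / 2) ^ k) x z‖ := by
    intro z k
    have : 0 ≤ ∑ x ∈ S k, ‖tm α (((1 : ℝ) / 2) ^ k) x z‖ := Finset.sum_nonneg fun x _ => norm_nonneg _
    positivity
  have hsum : ∀ z ∈ ball (0 : E) 1,
      Summable fun k => b ^ k * ∑ x ∈ S k, ‖tm α (((1 : ℝ) / 2) ^ k) x z‖ := by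
    intro z hz
    obtain ⟨D, -, hD, hD2, h1, h2⟩ := hDex z hz
    exact summable_of_sum_range_le (hnn z) (hpart z hz D hD hD2 h1 h2)
  have hsumf : ∀ z ∈ ball (0 : E) 1, Summable fun k => f k z := fun z hz =>
    Summable.of_norm_bounded (hsum z hz) fun k => hfn k z
  refine ⟨fun z => ∑' k, f k z, ?_, ?_, ?_⟩
  · -- holomorphic
    apply N4_tsum isOpen_ball hfd
    intro z hz
    have hz1 : ‖z‖ < 1 := by simpa using hz
    set ρ : ℝ := (1 - ‖z‖) / 2 with hρ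
    have hρ0 : 0 < ρ := by rw [hρ]; linarith
    have hw : ∀ w ∈ ball z ρ, ‖w‖ < 1 - ρ := by
      intro w hw
      rw [mem_ball, dist_eq_norm] at hw
      have h1 : ‖w‖ ≤ ‖w - z‖ + ‖z‖ := by
        have := norm_add_le (w - z) z
        rwa [sub_add_cancel] at this
      rw [hρ] at hw ⊢
      linarith
    refine ⟨ρ, hρ0, ?_, fun k => C' * ρ ^ (-(2 * s)) * (b⁻¹) ^ k, ?_, ?_⟩
    · intro w hw'
      have := hw w hw'
      simp only [mem_ball, dist_zero_right]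
      linarith
    · exact (summable_geometric_of_lt_one (by positivity) (inv_lt_one_of_one_lt₀ hb1)).mul_left _
    · intro k w hw'
      have hwn := hw w hw'
      have hwb : w ∈ ball (0 : E) 1 := by
        simp only [mem_ball, dist_zero_right]
        linarith
      obtain ⟨D, hDw, hD, hD2, h1, h2⟩ := hDex w hwb
      have hDρ : ρ ≤ D := by linarith
      refine (hfn k w).trans ((hup k w hwb D hD h1 h2).trans ?_)
      have h5 : (((1 : ℝ) / 2) ^ k / max D (((1 : ℝ) / 2) ^ k)) ^ (2 * s) ≤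
          (((1 : ℝ) / 2) ^ k / ρ) ^ (2 * s) := by
        apply Real.rpow_le_rpow (div_nonneg (hrpos k).le (le_max_of_le_right (hrpos k).le)) _ (by linarith)
        gcongr
        exact hDρ.trans (le_max_left _ _)
      have h6 : (((1 : ℝ) / 2) ^ k / ρ) ^ (2 * s) = (b ^ k)⁻¹ ^ 2 * ρ ^ (-(2 * s)) := by
        rw [Real.div_rpow (hrpos k).le hρ0.le, Real.rpow_neg hρ0.le, div_eq_mul_inv]
        congr 1
        rw [hb, ← N4_pow s k, ← Real.rpow_neg (hrpos k).le, neg_neg, mul_comm 2 s,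
          Real.rpow_mul (hrpos k).le]
        exact_mod_cast rfl
      calc C' * (b ^ k * (((1 : ℝ) / 2) ^ k / max D (((1 : ℝ) / 2) ^ k)) ^ (2 * s))
          ≤ C' * (b ^ k * ((b ^ k)⁻¹ ^ 2 * ρ ^ (-(2 * s)))) := by rw [← h6]; gcongr
        _ = C' * ρ ^ (-(2 * s)) * (b⁻¹) ^ k := by
          have h7 : b ^ k * (b ^ k)⁻¹ = 1 := mul_inv_cancel₀ (by positivity)
          calc C' * (b ^ k * ((b ^ k)⁻¹ ^ 2 * ρ ^ (-(2 * s))))
              = C' * ρ ^ (-(2 * s)) * (b ^ k)⁻¹ * (b ^ k * (b ^ k)⁻¹) := by ring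
            _ = C' * ρ ^ (-(2 * s)) * (b⁻¹) ^ k := by rw [h7, mul_one, inv_pow]
  · -- lower bound
    intro z hz ζ hζ
    have hz1 : ‖z‖ < 1 := by simpa using hz
    obtain ⟨D, hDz, hD, hD2, h1, ⟨ζ₀, hζ₀, hζ₀D⟩⟩ := hDex z hz
    obtain ⟨n, hn1, hn2⟩ := exists_nat_pow_near_of_lt_one (x := D / 2) (y := (1 : ℝ) / 2) (by positivity)
      (by linarith) (by norm_num) (by norm_num)
    have hr1 : ((1 : ℝ) / 2) ^ n < D := by
      rw [pow_succ] at hn1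
      linarith
    set r : ℝ := ((1 : ℝ) / 2) ^ n with hr
    obtain ⟨x, hx, hxζ⟩ := hSnet n ζ₀ hζ₀
    have h3 : ‖1 - ⟪x, z⟫_ℂ‖ ≤ 6 * D := by
      have := qtri (hxn n x hx).le (hKn ζ₀ hζ₀).le hz1.le
      linarith
    have h4 : (1 : ℝ) / 13 ≤ ‖tm α r x z‖ := by
      refine le_trans ?_ ((tm_facts hα0 hα1 (hrpos n) (hxn n x hx)).2 z hz).2.2.1
      have h5 : (1 : ℝ) / 13 ≤ r / (r + ‖1 - ⟪x, z⟫_ℂ‖) := by
        have hr0 : 0 < r := hrpos n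
        rw [div_le_div_iff₀ (by norm_num) (by positivity)]
        linarith
      calc (1 : ℝ) / 13 = ((1 : ℝ) / 13) ^ (1 : ℝ) := (Real.rpow_one _).symm
        _ ≤ ((1 : ℝ) / 13) ^ α :=
          Real.rpow_le_rpow_of_exponent_ge (by norm_num) (by norm_num) hα1.le
        _ ≤ (r / (r + ‖1 - ⟪x, z⟫_ℂ‖)) ^ α := Real.rpow_le_rpow (by norm_num) h5 hα0.le
    have h6 : D ^ (-s) ≤ b ^ n := by
      rw [hb, ← N4_pow s n]
      exact Real.rpow_le_rpow_of_nonpos (hrpos n) hr1.le (by linarith)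
    have h7 : ‖1 - ⟪ζ, z⟫_ℂ‖ ^ (-s) ≤ D ^ (-s) :=
      Real.rpow_le_rpow_of_nonpos hD (h1 ζ hζ) (by linarith)
    have hre : (∑' k, f k z).re = ∑' k, (f k z).re := Complex.re_tsum (hsumf z hz)
    have hsre : Summable fun k => (f k z).re := by
      have := Complex.hasSum_re (hsumf z hz).hasSum
      exact this.summable
    show c₀ * (1 / 13) * ‖1 - ⟪ζ, z⟫_ℂ‖ ^ (-s) ≤ (∑' k, f k z).re
    rw [hre]
    have hre0 : ∀ k, 0 ≤ (f k z).re := fun k =>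
      le_trans (mul_nonneg hc₀0.le (hnn z k)) (hfre k z hz)
    calc c₀ * (1 / 13) * ‖1 - ⟪ζ, z⟫_ℂ‖ ^ (-s) ≤ c₀ * (1 / 13) * b ^ n := by
          gcongr
          exact h7.trans h6
      _ = c₀ * (b ^ n * (1 / 13)) := by ring
      _ ≤ c₀ * (b ^ n * ∑ x ∈ S n, ‖tm α (((1 : ℝ) / 2) ^ n) x z‖) := by
          gcongr
          exact h4.trans (Finset.single_le_sum (f := fun x => ‖tm α (((1 : ℝ) / 2) ^ n) x z‖)
            (fun i _ => norm_nonneg _) hx)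
      _ ≤ (f n z).re := hfre n z hz
      _ ≤ ∑' k, (f k z).re := hsre.le_tsum n (fun j _ => hre0 j)
  · -- upper bound
    intro z hz
    obtain ⟨D, hDz, hD, hD2, h1, ⟨ζ₀, hζ₀, hζ₀D⟩⟩ := hDex z hz
    refine ⟨ζ₀, hζ₀, ?_⟩
    show ‖∑' k, f k z‖ ≤ _
    have h2 : ‖∑' k, f k z‖ ≤ C' * (2 * b / (b - 1)) * D ^ (-s) := by
      have h3 : ‖∑' k, f k z‖ ≤ ∑' k, b ^ k * ∑ x ∈ S k, ‖tm α (((1 : ℝ) / 2) ^ k) x z‖ :=
        tsum_of_norm_bounded (hsum z hz).hasSum fun k => hfn k z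
      refine h3.trans ?_
      exact (hsum z hz).tsum_le_of_sum_range_le (hpart z hz D hD hD2 h1 ⟨ζ₀, hζ₀, hζ₀D⟩)
    have h4 : D ^ (-s) ≤ b * ‖1 - ⟪ζ₀, z⟫_ℂ‖ ^ (-s) := by
      have hpos : 0 < ‖1 - ⟪ζ₀, z⟫_ℂ‖ := lt_of_lt_of_le hD (h1 ζ₀ hζ₀)
      calc D ^ (-s) ≤ (‖1 - ⟪ζ₀, z⟫_ℂ‖ / 2) ^ (-s) :=
            Real.rpow_le_rpow_of_nonpos (by positivity) (by linarith) (by linarith)
        _ = b * ‖1 - ⟪ζ₀, z⟫_ℂ‖ ^ (-s) := by
            rw [Real.div_rpow hpos.le (by norm_num), Real.rpow_neg (by norm_num : (0:ℝ) ≤ 2) s, ← hb,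
              div_inv_eq_mul]
            ring
    have h5 : 0 ≤ C' * (2 * b / (b - 1)) := by positivity
    calc ‖∑' k, f k z‖ ≤ C' * (2 * b / (b - 1)) * D ^ (-s) := h2
      _ ≤ C' * (2 * b / (b - 1)) * (b * ‖1 - ⟪ζ₀, z⟫_ℂ‖ ^ (-s)) := mul_le_mul_of_nonneg_left h4 h5
      _ = _ := by ring

end Pool.Agent.MPca0fc2.TK
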