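import Mathlib
import Pool.Agent.Lib.MP_ca0fc2_an.TK.Defs
import Pool.Agent.Lib.MP_ca0fc2_an.XC.X3

set_option autoImplicit false
set_option linter.unusedSectionVars false

open Metric Set MeasureTheory Filter Topology
open scoped InnerProductSpace ENNReal ContDiff

namespace Pool.Agent.MPca0fc2.TK

open Pool.Agent.MPca0fc2.PT
open Pool.Agent.MPca0fc2.QT
open Pool.Agent.MPca0fc2.TS
open Pool.Agent.MPca0fc2.TE

variable {E : Type*} [NormedAddCommGroup E] [InnerProductSpace ℂ E]

variable [FiniteDimensional ℂ E] [MeasurableSpace E] [BorelSpace E]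

/-- `nuH` is a finite measure on the ball: the density is at most `1/c` there (pattern: `XC.nuX_OnB`, XC/X3.lean). -/
theorem nuH_OnB (μ : Measure E) [μ.IsAddHaarMeasure] {c C : ℝ} (hc : 0 < c) {H : E → ℂ}
    (hH : Adm c C H) : OnB (nuH μ H) := by
  have hprop : ProperSpace E := FiniteDimensional.proper ℂ E
  refine ⟨⟨?_⟩, ?_⟩
  · unfold nuH
    rw [withDensity_apply _ MeasurableSet.univ, Measure.restrict_univ]
    have hle : ∫⁻ x in ball (0 : E) 1, ENNReal.ofReal ((1 - ‖x‖ ^ 2) / ‖H x‖) ∂μ ≤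
        ∫⁻ x in ball (0 : E) 1, ENNReal.ofReal (1 / c) ∂μ := by
      refine setLIntegral_mono' measurableSet_ball fun x hx => ?_
      apply ENNReal.ofReal_le_ofReal
      have hlo := hH.lo x hx
      rw [mem_ball_zero_iff] at hx
      have h0 : 0 < 1 - ‖x‖ ^ 2 := by nlinarith [norm_nonneg x]
      have h1 : 0 < ‖H x‖ := lt_of_lt_of_le (mul_pos hc h0) hlo
      rw [div_le_div_iff₀ h1 hc]
      linarith
    refine lt_of_le_of_lt hle ?_
    rw [lintegral_const, Measure.restrict_apply_univ]
    exact ENNReal.mul_lt_top ENNReal.ofReal_lt_top measure_ball_lt_top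
  · unfold nuH
    refine withDensity_absolutelyContinuous _ _ ?_
    rw [Measure.restrict_apply measurableSet_ball.compl, compl_inter_self, measure_empty]

/-- `PP` as an integral over the ball (pattern: `XC.PP_nuX`; the density is only a.e. measurable: it is
continuous on the ball, so `AEMeasurable` for `μ.restrict (ball 0 1)`, use `integral_withDensity_eq_integral_toReal_smul₀`). -/
theorem PP_nuH (μ : Measure E) [μ.IsAddHaarMeasure] {c C : ℝ} (hc : 0 < c) {H : E → ℂ}
    (hH : Adm c C H) (p : ℝ) (z : E) :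
    PP (nuH μ H) p z = ∫ x in ball (0 : E) 1, (1 - ‖x‖ ^ 2) / ‖H x‖ * ‖1 - ⟪x, z⟫_ℂ‖ ^ (-p) ∂μ := by
  have hmeas : AEMeasurable (fun x : E => ENNReal.ofReal ((1 - ‖x‖ ^ 2) / ‖H x‖))
      (μ.restrict (ball 0 1)) := by
    apply AEMeasurable.ennreal_ofReal
    have h0 : Measurable fun x : E => 1 - ‖x‖ ^ 2 :=
      measurable_const.sub (measurable_norm.pow_const 2)
    have h1 : AEMeasurable (fun x : E => ‖H x‖) (μ.restrict (ball 0 1)) :=
      (hH.holo.continuousOn.norm).aemeasurable measurableSet_ball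
    exact h0.aemeasurable.div h1
  unfold PP nuH
  rw [integral_withDensity_eq_integral_toReal_smul₀ hmeas
    (Filter.Eventually.of_forall fun _ => ENNReal.ofReal_lt_top)]
  refine setIntegral_congr_fun measurableSet_ball fun x hx => ?_
  rw [mem_ball_zero_iff] at hx
  have hx2 : 0 ≤ 1 - ‖x‖ ^ 2 := by nlinarith [norm_nonneg x]
  simp only [smul_eq_mul]
  rw [ENNReal.toReal_ofReal (div_nonneg hx2 (norm_nonneg _))]

end Pool.Agent.MPca0fc2.TK
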