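import Mathlib
import Pool.Agent.Lib.MP_ca0fc2_an.TK.K1
import Pool.Agent.Lib.MP_ca0fc2_an.XC.X4

set_option autoImplicit false
set_option linter.unusedSectionVars false

open Metric Set MeasureTheory Filter Topology
open scoped InnerProductSpace ENNReal ContDiff

namespace Pool.Agent.MPca0fc2.TK

open Pool.Agent.MPca0fc2.PT
open Pool.Agent.MPca0fc2.QT
open Pool.Agent.MPca0fc2.TS
open Pool.Agent.MPca0fc2.TE

variable {E : Type*} [NormedAddCommGroup E] [InnerProductSpace ℂ E]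

variable [FiniteDimensional ℂ E] [MeasurableSpace E] [BorelSpace E]

omit [FiniteDimensional ℂ E] [MeasurableSpace E] [BorelSpace E] in
private theorem K2_den {y x : E} (hy : ‖y‖ < 1) (hx : ‖x‖ < 1 / 2) :
    1 / 2 ≤ ‖1 + ⟪y, x⟫_ℂ‖ ∧ ‖1 + ⟪y, x⟫_ℂ‖ ≤ 3 / 2 := by
  have h1 : ‖⟪y, x⟫_ℂ‖ ≤ 1 / 2 := by
    have h2 := norm_inner_le_norm (𝕜 := ℂ) y x
    nlinarith [norm_nonneg y, norm_nonneg x]
  have h3 := norm_sub_norm_le (1 : ℂ) (-⟪y, x⟫_ℂ)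
  rw [sub_neg_eq_add, norm_neg, norm_one] at h3
  have h4 := norm_add_le (1 : ℂ) ⟪y, x⟫_ℂ
  rw [norm_one] at h4
  exact ⟨by linarith, by linarith⟩

omit [FiniteDimensional ℂ E] [MeasurableSpace E] [BorelSpace E] in
private theorem K2_ker' {y x : E} (hy : ‖y‖ < 1) (hx : ‖x‖ < 1) :
    ‖1 - ⟪y, gg y x⟫_ℂ‖ = (1 - ‖y‖ ^ 2) / ‖1 + ⟪y, x⟫_ℂ‖ := by
  have ha : 0 ≤ 1 - ‖y‖ ^ 2 := by nlinarith [norm_nonneg y]
  rw [inner_gg_self hy hx.le, norm_div, Complex.norm_real, Real.norm_of_nonneg ha]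

omit [FiniteDimensional ℂ E] [MeasurableSpace E] [BorelSpace E] in
private theorem K2_ker {y x : E} (hy : ‖y‖ < 1) (hx : ‖x‖ < 1) :
    ‖1 - ⟪gg y x, y⟫_ℂ‖ = (1 - ‖y‖ ^ 2) / ‖1 + ⟪y, x⟫_ℂ‖ := by
  rw [← K2_ker' hy hx, ← Complex.norm_conj, map_sub, map_one, inner_conj_symm]

private theorem K2_int {ν : Measure E} (hν : OnB ν) {p : ℝ} (hp : 0 ≤ p) {y : E}
    (hy : ‖y‖ < 1) : Integrable (fun x => ‖1 - ⟪x, y⟫_ℂ‖ ^ (-p)) ν := by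
  have := hν.fin
  have hcont : Continuous fun x : E => ‖1 - ⟪x, y⟫_ℂ‖ := by fun_prop
  have hmeas : Measurable fun x : E => ‖1 - ⟪x, y⟫_ℂ‖ ^ (-p) := hcont.measurable.pow_const _
  refine Integrable.mono' (integrable_const ((1 - ‖y‖) ^ (-p))) hmeas.aestronglyMeasurable ?_
  have hae : ∀ᵐ x ∂ν, x ∈ ball (0 : E) 1 := by
    rw [ae_iff]
    exact hν.supp
  filter_upwards [hae] with x hx
  rw [mem_ball_zero_iff] at hx
  rw [Real.norm_of_nonneg (Real.rpow_nonneg (norm_nonneg _) _)]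
  apply Real.rpow_le_rpow_of_nonpos (by linarith) _ (by linarith)
  have h1 := norm_inner_le_norm (𝕜 := ℂ) x y
  have h2 := norm_sub_norm_le (1 : ℂ) ⟪x, y⟫_ℂ
  rw [norm_one] at h2
  nlinarith [norm_nonneg y, norm_nonneg x]

private theorem K2_real {a D b h h0 : ℝ} (m : ℕ) (ha : 0 < a) (hD1 : 1 / 2 ≤ D) (hD2 : D ≤ 3 / 2)
    (hb : 3 / 4 ≤ b) (hh : 0 < h) (hh0 : h ≤ h0) :
    (1 / 2) ^ (m + 4) * a ^ (-(1 / 4 : ℝ)) / h0 ≤ (a / D ^ 2) ^ (m + 2) *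
      (a * b / D ^ 2 / h * (a / D) ^ (-(((m + 3 : ℕ) : ℝ) + 1 / 4))) := by
  have hD0 : 0 < D := by linarith
  have hb0 : 0 < b := by linarith
  have haD : 0 < a / D := by positivity
  have hh00 : 0 < h0 := by linarith
  have h1 : (a / D) ^ (-(((m + 3 : ℕ) : ℝ) + 1 / 4)) =
      ((a / D) ^ (m + 3))⁻¹ * (a / D) ^ (-(1 / 4 : ℝ)) := by
    rw [neg_add, Real.rpow_add haD, Real.rpow_neg haD.le, Real.rpow_natCast]
  have h5 : 0 < a ^ (-(1 / 4 : ℝ)) := Real.rpow_pos_of_pos ha _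
  have h6 : (1 / 2 : ℝ) * a ^ (-(1 / 4 : ℝ)) ≤ (a / D) ^ (-(1 / 4 : ℝ)) := by
    rw [Real.div_rpow ha.le hD0.le, Real.rpow_neg hD0.le, div_inv_eq_mul, mul_comm]
    have h7 : (1 / 2 : ℝ) ^ (1 / 4 : ℝ) ≤ D ^ (1 / 4 : ℝ) :=
      Real.rpow_le_rpow (by norm_num) hD1 (by norm_num)
    have h8 : (1 / 2 : ℝ) ^ (1 : ℝ) ≤ (1 / 2 : ℝ) ^ (1 / 4 : ℝ) :=
      Real.rpow_le_rpow_of_exponent_ge (by norm_num) (by norm_num) (by norm_num)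
    rw [Real.rpow_one] at h8
    exact mul_le_mul_of_nonneg_left (h8.trans h7) h5.le
  have h2 : a * b / D ^ 2 = (a / D) * (b / D) := by field_simp
  have h3 : a / D ^ 2 = (a / D) * (1 / D) := by field_simp
  have hbD : 1 / 2 ≤ b / D := by
    rw [le_div_iff₀ hD0]; linarith
  have h1D : 1 / 2 ≤ 1 / D := by
    rw [div_le_div_iff₀ (by norm_num) hD0]; linarith
  rw [h1, h2, h3]
  generalize (a / D) ^ (-(1 / 4 : ℝ)) = q at *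
  generalize a ^ (-(1 / 4 : ℝ)) = g at *
  generalize a / D = t at *
  generalize b / D = r at *
  generalize 1 / D = e at *
  have e1 : (t * e) ^ (m + 2) * (t * r / h * ((t ^ (m + 3))⁻¹ * q)) = e ^ (m + 2) * r * q / h := by
    have : t ^ (m + 3) = t ^ (m + 2) * t := by ring
    rw [this, mul_pow]
    field_simp
  rw [e1]
  have e2 : (1 / 2 : ℝ) ^ (m + 4) * g / h0 = (1 / 2) ^ (m + 2) * (1 / 2) * ((1 / 2) * g) / h0 := by ring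
  rw [e2]
  have h9 : 0 ≤ r := by linarith
  have h10 : 0 ≤ e := by linarith
  have h11 : 0 ≤ q := by linarith
  gcongr

/-- The weight is large. Proof. `PP_nuH`; restrict the integral to the hyperbolic ball `gg y '' ball 0 (1/2)` (pattern: XC/X4.lean, `Om_low`; `XC.hyp_ball`): on it `1 - ‖x‖²` is comparable with `D = 1 - ‖y‖²`
(`≥ D/3`), `‖1 - ⟪x, y⟫‖ ≤ 2 D`, `‖H x‖ ≤ C (‖H y‖ + 2 D) ≤ C (1 + 2/c) ‖H y‖` (`tri` with `z := x`, `w := y`, `norm_inner_symm`-type rewriting `‖1 - ⟪y, x⟫‖ = ‖1 - ⟪x, y⟫‖`; `lo`), and its volume is `≥ const * D^(m+2)` (as in XC/X4). So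
`Om = D^(1/4) PP ≥ const * D^(1/4) * D^(m+2) * D / ‖H y‖ * D^(-(m+3+1/4)) = const / ‖H y‖`. (`Om ν M y = (1 - ‖y‖²)^(1/4) * PP ν (M + 1/4) y`.) -/
theorem Om_lowH (μ : Measure E) [μ.IsAddHaarMeasure] {m : ℕ} (hm : 1 ≤ m)
    (hdim : Module.finrank ℂ E = m + 1) {c C : ℝ} (hc : 0 < c) (hC : 0 < C) :
    ∃ a : ℝ, 0 < a ∧ ∀ H : E → ℂ, Adm c C H → ∀ y ∈ ball (0 : E) 1,
      a ≤ ‖H y‖ * Om (nuH μ H) (m + 3) y := by
  have hprop : ProperSpace E := FiniteDimensional.proper ℂ E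
  set V : ℝ := μ.real (ball (0 : E) (1 / 2)) with hV
  have hV0 : 0 < V :=
    ENNReal.toReal_pos (measure_ball_pos μ 0 (by norm_num)).ne' measure_ball_lt_top.ne
  have hVV : μ (ball (0 : E) (1 / 2)) = ENNReal.ofReal V := by
    rw [hV, ofReal_measureReal]
  obtain ⟨C₁, hC₁⟩ : ∃ C₁ : ℝ, C₁ = C * (1 + 2 / c) := ⟨_, rfl⟩
  have hC₁0 : 0 < C₁ := by rw [hC₁]; positivity
  refine ⟨(1 / 2) ^ (m + 4) / C₁ * V, by positivity, ?_⟩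
  intro H hH y hy
  have hy1 : ‖y‖ < 1 := mem_ball_zero_iff.mp hy
  have ha : 0 < 1 - ‖y‖ ^ 2 := by nlinarith [norm_nonneg y]
  have hHy : 0 < ‖H y‖ := lt_of_lt_of_le (mul_pos hc ha) (hH.lo y hy)
  have hB : OnB (nuH μ H) := nuH_OnB μ hc hH
  obtain ⟨P, hP⟩ : ∃ P, P = PP (nuH μ H) (((m + 3 : ℕ) : ℝ) + 1 / 4) y := ⟨_, rfl⟩
  have hP0 : 0 ≤ P := by
    rw [hP]
    exact integral_nonneg fun x => Real.rpow_nonneg (norm_nonneg _) _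
  have hdm : AEMeasurable (fun x : E => ENNReal.ofReal ((1 - ‖x‖ ^ 2) / ‖H x‖))
      (μ.restrict (ball (0 : E) 1)) := by
    have h5 : AEMeasurable (fun x : E => 1 - ‖x‖ ^ 2) (μ.restrict (ball (0 : E) 1)) :=
      (measurable_const.sub (measurable_norm.pow_const 2)).aemeasurable
    have h6 : AEMeasurable (fun x : E => ‖H x‖) (μ.restrict (ball (0 : E) 1)) :=
      (hH.holo.continuousOn.norm).aemeasurable measurableSet_ball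
    exact (h5.div h6).ennreal_ofReal
  have hkm : Measurable fun x : E => ENNReal.ofReal (‖1 - ⟪x, y⟫_ℂ‖ ^ (-(((m + 3 : ℕ) : ℝ) + 1 / 4))) := by
    have hcont : Continuous fun x : E => ‖1 - ⟪x, y⟫_ℂ‖ := by fun_prop
    exact ENNReal.measurable_ofReal.comp (hcont.measurable.pow_const _)
  have h2 : ENNReal.ofReal P = ∫⁻ x in ball (0 : E) 1,
      ENNReal.ofReal (((1 - ‖y‖ ^ 2) / ‖1 + ⟪y, x⟫_ℂ‖ ^ 2) ^ (m + 2)) *
        (ENNReal.ofReal ((1 - ‖gg y x‖ ^ 2) / ‖H (gg y x)‖) *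
          ENNReal.ofReal (‖1 - ⟪gg y x, y⟫_ℂ‖ ^ (-(((m + 3 : ℕ) : ℝ) + 1 / 4)))) ∂μ := by
    rw [← lintegral_gg μ hdim hy1 (fun x => ENNReal.ofReal ((1 - ‖x‖ ^ 2) / ‖H x‖) *
      ENNReal.ofReal (‖1 - ⟪x, y⟫_ℂ‖ ^ (-(((m + 3 : ℕ) : ℝ) + 1 / 4)))),
      hP, PP, ofReal_integral_eq_lintegral_ofReal (K2_int hB (by positivity) hy1)
      (ae_of_all _ fun _ => Real.rpow_nonneg (norm_nonneg _) _), nuH,
      lintegral_withDensity_eq_lintegral_mul₀ hdm hkm.aemeasurable]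
    rfl
  have h3 : ENNReal.ofReal ((1 / 2) ^ (m + 4) * (1 - ‖y‖ ^ 2) ^ (-(1 / 4 : ℝ)) / (C₁ * ‖H y‖)) *
      μ (ball (0 : E) (1 / 2)) ≤ ENNReal.ofReal P := by
    rw [h2, ← setLIntegral_const]
    refine le_trans ?_ (lintegral_mono_set (ball_subset_ball (by norm_num : (1 : ℝ) / 2 ≤ 1)))
    apply setLIntegral_mono' measurableSet_ball
    intro x hx
    rw [mem_ball_zero_iff] at hx
    have hx1 : ‖x‖ < 1 := by linarith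
    obtain ⟨hD1, hD2⟩ := K2_den hy1 hx
    have hb : 3 / 4 ≤ 1 - ‖x‖ ^ 2 := by nlinarith [norm_nonneg x]
    have hgx := gg_lt hy1 hx1
    have hgb : gg y x ∈ ball (0 : E) 1 := mem_ball_zero_iff.mpr hgx
    have hw : 0 < 1 - ‖gg y x‖ ^ 2 := by nlinarith [norm_nonneg (gg y x)]
    have hHg : 0 < ‖H (gg y x)‖ := lt_of_lt_of_le (mul_pos hc hw) (hH.lo _ hgb)
    have hHu : ‖H (gg y x)‖ ≤ C₁ * ‖H y‖ := by
      have t1 := hH.tri (gg y x) hgb y hy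
      rw [K2_ker' hy1 hx1] at t1
      have t2 : (1 - ‖y‖ ^ 2) / ‖1 + ⟪y, x⟫_ℂ‖ ≤ 2 * (1 - ‖y‖ ^ 2) := by
        rw [div_le_iff₀ (by linarith)]
        nlinarith
      have t3 : 2 * (1 - ‖y‖ ^ 2) ≤ 2 / c * ‖H y‖ := by
        have t4 := hH.lo y hy
        rw [div_mul_eq_mul_div, le_div_iff₀ hc]
        linarith
      calc ‖H (gg y x)‖ ≤ C * (‖H y‖ + (1 - ‖y‖ ^ 2) / ‖1 + ⟪y, x⟫_ℂ‖) := t1
        _ ≤ C * (‖H y‖ + 2 / c * ‖H y‖) := by gcongr; linarith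
        _ = C₁ * ‖H y‖ := by rw [hC₁]; ring
    have hk := K2_real m ha hD1 hD2 hb hHg hHu
    rw [← ENNReal.ofReal_mul (by positivity), ← ENNReal.ofReal_mul (by positivity)]
    apply ENNReal.ofReal_le_ofReal
    rw [K2_ker hy1 hx1, norm_gg hy1 hx1.le]
    exact hk
  rw [hVV, ← ENNReal.ofReal_mul (by positivity), ENNReal.ofReal_le_ofReal_iff hP0] at h3
  unfold Om
  rw [← hP]
  have h5 : 0 < (1 - ‖y‖ ^ 2) ^ (1 / 4 : ℝ) := Real.rpow_pos_of_pos ha _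
  have h6 : (1 - ‖y‖ ^ 2) ^ (1 / 4 : ℝ) * (1 - ‖y‖ ^ 2) ^ (-(1 / 4 : ℝ)) = 1 := by
    rw [← Real.rpow_add ha, add_neg_cancel, Real.rpow_zero]
  calc (1 / 2) ^ (m + 4) / C₁ * V
      = ‖H y‖ * (((1 - ‖y‖ ^ 2) ^ (1 / 4 : ℝ)) * ((1 / 2) ^ (m + 4) * (1 - ‖y‖ ^ 2) ^ (-(1 / 4 : ℝ)) /
          (C₁ * ‖H y‖) * V)) := by
        have e1 : ‖H y‖ * (((1 - ‖y‖ ^ 2) ^ (1 / 4 : ℝ)) * ((1 / 2) ^ (m + 4) *
            (1 - ‖y‖ ^ 2) ^ (-(1 / 4 : ℝ)) / (C₁ * ‖H y‖) * V)) =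
            (((1 - ‖y‖ ^ 2) ^ (1 / 4 : ℝ)) * (1 - ‖y‖ ^ 2) ^ (-(1 / 4 : ℝ))) *
              ((1 / 2) ^ (m + 4) / C₁ * V) * (‖H y‖ / ‖H y‖) := by
          field_simp
        rw [e1, h6, div_self hHy.ne']
        ring
    _ ≤ ‖H y‖ * ((1 - ‖y‖ ^ 2) ^ (1 / 4 : ℝ) * P) := by gcongr

end Pool.Agent.MPca0fc2.TK
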