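import Mathlib
import Pool.Agent.Lib.MP_ca0fc2_an.TK.K1
import Pool.Agent.Lib.MP_ca0fc2_an.TE.OscK

set_option autoImplicit false
set_option linter.unusedSectionVars false

open Metric Set MeasureTheory Filter Topology
open scoped InnerProductSpace ENNReal ContDiff

namespace Pool.Agent.MPca0fc2.TK

open Pool.Agent.MPca0fc2.PT
open Pool.Agent.MPca0fc2.QT
open Pool.Agent.MPca0fc2.TS
open Pool.Agent.MPca0fc2.TE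

variable {E : Type*} [NormedAddCommGroup E] [InnerProductSpace ℂ E]

variable [FiniteDimensional ℂ E] [MeasurableSpace E] [BorelSpace E]

/-- The weight is not too large. Proof. `PP_nuH`. For `x, y` in the ball, `D = ‖1 - ⟪x, y⟫‖ > 0`: `1 - ‖x‖² ≤ 2 D`, and `‖H y‖ ≤ C (‖H x‖ + D)` (`tri` with `z := y`, `w := x`), so
`‖H y‖ (1 - ‖x‖²)/‖H x‖ ≤ C (1 - ‖x‖²) (1 + D/‖H x‖) ≤ C (2 D + D/c)` (`lo`). So `‖H y‖ * PP ≤ C (2 + 1/c) ∫ D^(1 - (m+3+1/4)) = C (2 + 1/c) ∫ (1/D)^(m+2+1/4)`, and `osc_int` (TE/OscK.lean). -/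
theorem Om_upH (μ : Measure E) [μ.IsAddHaarMeasure] {m : ℕ} (hm : 1 ≤ m)
    (hdim : Module.finrank ℂ E = m + 1) {c C : ℝ} (hc : 0 < c) (hC : 0 < C) :
    ∃ A : ℝ, 0 < A ∧ ∀ H : E → ℂ, Adm c C H → ∀ y ∈ ball (0 : E) 1,
      ‖H y‖ * Om (nuH μ H) (m + 3) y ≤ A := by
  obtain ⟨A, hA, h⟩ := osc_int μ m hm hdim
  refine ⟨C * (2 + 1 / c) * A, by positivity, ?_⟩
  intro H hH y hy
  have hy1 : ‖y‖ < 1 := mem_ball_zero_iff.mp hy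
  obtain ⟨hi, hb⟩ := h y hy1
  have ht0 : 0 < 1 - ‖y‖ ^ 2 := by nlinarith [norm_nonneg y]
  have ht4 : 0 ≤ (1 - ‖y‖ ^ 2) ^ (1 / 4 : ℝ) := by positivity
  have hD : ∀ x ∈ ball (0 : E) 1, 0 < ‖1 - ⟪x, y⟫_ℂ‖ ∧ 1 - ‖x‖ ^ 2 ≤ 2 * ‖1 - ⟪x, y⟫_ℂ‖ := by
    intro x hx
    have hx1 := mem_ball_zero_iff.mp hx
    have h1 : ‖x‖ * ‖y‖ < 1 := by nlinarith [norm_nonneg x, norm_nonneg y]
    have h2 : 1 - ‖x‖ * ‖y‖ ≤ ‖1 - ⟪x, y⟫_ℂ‖ := by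
      have a1 := norm_sub_norm_le (1 : ℂ) ⟪x, y⟫_ℂ
      rw [norm_one] at a1
      have a2 := norm_inner_le_norm (𝕜 := ℂ) x y
      linarith
    refine ⟨by linarith, ?_⟩
    nlinarith [norm_nonneg x, norm_nonneg y]
  have key : ‖H y‖ * ∫ x in ball (0 : E) 1, (1 - ‖x‖ ^ 2) / ‖H x‖ *
      ‖1 - ⟪x, y⟫_ℂ‖ ^ (-(((m + 3 : ℕ) : ℝ) + 1 / 4)) ∂μ ≤
      C * (2 + 1 / c) * ∫ w in ball (0 : E) 1, (1 / ‖1 - ⟪w, y⟫_ℂ‖) ^ ((m + 2 : ℝ) + 1 / 4) ∂μ := by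
    rw [← integral_const_mul, ← integral_const_mul]
    apply integral_mono_of_nonneg
    · refine (ae_restrict_iff' measurableSet_ball).mpr (Eventually.of_forall fun x hx => ?_)
      have hx1 := mem_ball_zero_iff.mp hx
      have : 0 ≤ 1 - ‖x‖ ^ 2 := by nlinarith [norm_nonneg x]
      show (0 : ℝ) ≤ _
      positivity
    · exact hi.const_mul _
    · refine (ae_restrict_iff' measurableSet_ball).mpr (Eventually.of_forall fun x hx => ?_)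
      obtain ⟨hD0, hD2⟩ := hD x hx
      have hx1 := mem_ball_zero_iff.mp hx
      have hd0 : 0 < 1 - ‖x‖ ^ 2 := by nlinarith [norm_nonneg x]
      have hlo := hH.lo x hx
      have hH0 : 0 < ‖H x‖ := lt_of_lt_of_le (mul_pos hc hd0) hlo
      have htri := hH.tri y hy x hx
      set D : ℝ := ‖1 - ⟪x, y⟫_ℂ‖ with hDd
      have e1 : D ^ (-(((m + 3 : ℕ) : ℝ) + 1 / 4)) =
          D⁻¹ * (1 / D) ^ ((m + 2 : ℝ) + 1 / 4) := by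
        have f1 : (1 / D) ^ ((m + 2 : ℝ) + 1 / 4) = D ^ (-((m + 2 : ℝ) + 1 / 4)) := by
          rw [show (1 : ℝ) / D = D⁻¹ from one_div D, Real.inv_rpow hD0.le, ← Real.rpow_neg hD0.le]
        rw [f1, ← Real.rpow_neg_one D, ← Real.rpow_add hD0]
        congr 1
        push_cast
        ring
      have e2 : ‖H y‖ * ((1 - ‖x‖ ^ 2) / ‖H x‖) ≤ C * (2 + 1 / c) * D := by
        have a1 : (1 - ‖x‖ ^ 2) / ‖H x‖ ≤ 1 / c := by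
          rw [div_le_div_iff₀ hH0 hc]
          linarith
        have a0 : 0 ≤ (1 - ‖x‖ ^ 2) / ‖H x‖ := by positivity
        calc ‖H y‖ * ((1 - ‖x‖ ^ 2) / ‖H x‖) ≤
            (C * (‖H x‖ + D)) * ((1 - ‖x‖ ^ 2) / ‖H x‖) :=
              mul_le_mul_of_nonneg_right htri a0
          _ = C * ((1 - ‖x‖ ^ 2) + D * ((1 - ‖x‖ ^ 2) / ‖H x‖)) := by
              field_simp
          _ ≤ C * (2 * D + D * (1 / c)) := by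
              apply mul_le_mul_of_nonneg_left _ hC.le
              apply add_le_add hD2
              exact mul_le_mul_of_nonneg_left a1 hD0.le
          _ = C * (2 + 1 / c) * D := by ring
      have e3 : 0 ≤ (1 / D) ^ ((m + 2 : ℝ) + 1 / 4) := by positivity
      show ‖H y‖ * ((1 - ‖x‖ ^ 2) / ‖H x‖ * D ^ (-(((m + 3 : ℕ) : ℝ) + 1 / 4))) ≤
        C * (2 + 1 / c) * (1 / D) ^ ((m + 2 : ℝ) + 1 / 4)
      rw [e1]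
      calc ‖H y‖ * ((1 - ‖x‖ ^ 2) / ‖H x‖ * (D⁻¹ * (1 / D) ^ ((m + 2 : ℝ) + 1 / 4)))
          = (‖H y‖ * ((1 - ‖x‖ ^ 2) / ‖H x‖)) * (D⁻¹ * (1 / D) ^ ((m + 2 : ℝ) + 1 / 4)) := by
            ring
        _ ≤ (C * (2 + 1 / c) * D) * (D⁻¹ * (1 / D) ^ ((m + 2 : ℝ) + 1 / 4)) := by
            apply mul_le_mul_of_nonneg_right e2
            positivity
        _ = C * (2 + 1 / c) * (1 / D) ^ ((m + 2 : ℝ) + 1 / 4) * (D * D⁻¹) := by ring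
        _ = C * (2 + 1 / c) * (1 / D) ^ ((m + 2 : ℝ) + 1 / 4) := by
            rw [mul_inv_cancel₀ hD0.ne', mul_one]
  rw [Om, PP_nuH μ hc hH]
  calc ‖H y‖ * ((1 - ‖y‖ ^ 2) ^ (1 / 4 : ℝ) * ∫ x in ball (0 : E) 1, (1 - ‖x‖ ^ 2) / ‖H x‖ *
        ‖1 - ⟪x, y⟫_ℂ‖ ^ (-(((m + 3 : ℕ) : ℝ) + 1 / 4)) ∂μ)
      = (1 - ‖y‖ ^ 2) ^ (1 / 4 : ℝ) * (‖H y‖ * ∫ x in ball (0 : E) 1, (1 - ‖x‖ ^ 2) / ‖H x‖ *
        ‖1 - ⟪x, y⟫_ℂ‖ ^ (-(((m + 3 : ℕ) : ℝ) + 1 / 4)) ∂μ) := by ring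
    _ ≤ (1 - ‖y‖ ^ 2) ^ (1 / 4 : ℝ) * (C * (2 + 1 / c) *
        ∫ w in ball (0 : E) 1, (1 / ‖1 - ⟪w, y⟫_ℂ‖) ^ ((m + 2 : ℝ) + 1 / 4) ∂μ) :=
        mul_le_mul_of_nonneg_left key ht4
    _ = C * (2 + 1 / c) * ((1 - ‖y‖ ^ 2) ^ (1 / 4 : ℝ) *
        ∫ w in ball (0 : E) 1, (1 / ‖1 - ⟪w, y⟫_ℂ‖) ^ ((m + 2 : ℝ) + 1 / 4) ∂μ) := by ring
    _ ≤ C * (2 + 1 / c) * A := mul_le_mul_of_nonneg_left hb (by positivity)

end Pool.Agent.MPca0fc2.TK
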