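import Mathlib

set_option autoImplicit false

open Metric Set MeasureTheory Filter Topology

namespace Pool.Agent.MPca0fc2.TK

/-- One variable. Proof. If `X = 0` then `Φ = 0` on `[0, 1]`. For `t ∈ [0, 1]`, `u = 1 - t r ∈ [1 - r, 1]`: `1 - t² r² ≥ u`, so `Φ t / (1 - t² r²) ≤ min 1 (X/u) / u ≤ 2 X/(u (u + X))` (two cases `X ≤ u`, `u < X`). So the integral is
`≤ ∫_0^1 2 X r/(u (u + X)) dt = 2 [log ((u + X)/u)]_{t=0}^{t=1} = 2 log ((1 - r + X)/(1 - r)) - 2 log (1 + X) ≤ 2 log (1 + X/(1 - r))` (fundamental theorem of calculus; `d/dt log ((u + X)/u) = r (1/u - 1/(u + X)) = r X/(u (u + X))`). If `Φ` is not integrable the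
integral is `0`; with `hΦc` everything is integrable. Patterns: TE/G6.lean, `GI_log`. -/
theorem one_int {r X : ℝ} (hr0 : 0 ≤ r) (hr1 : r < 1) (hX : 0 ≤ X) {Φ : ℝ → ℝ}
    (hΦc : ContinuousOn Φ (Icc 0 1)) (hΦ0 : ∀ t ∈ Icc (0 : ℝ) 1, 0 ≤ Φ t)
    (hΦ1 : ∀ t ∈ Icc (0 : ℝ) 1, Φ t ≤ 1)
    (hΦX : ∀ t ∈ Icc (0 : ℝ) 1, Φ t ≤ X / (1 - t ^ 2 * r ^ 2)) :
    ∫ t in Icc (0 : ℝ) 1, Φ t * (r / (1 - t ^ 2 * r ^ 2)) ≤ 2 * Real.log (1 + X / (1 - r)) := by
  have hu : ∀ t ∈ Icc (0 : ℝ) 1, 0 < 1 - t * r := by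
    intro t ht
    have h1 : t * r ≤ 1 * r := mul_le_mul_of_nonneg_right ht.2 hr0
    linarith
  have hD : ∀ t ∈ Icc (0 : ℝ) 1, 1 - t * r ≤ 1 - t ^ 2 * r ^ 2 := by
    intro t ht
    have h1 : 0 ≤ t * r := mul_nonneg ht.1 hr0
    have h2 : t * r ≤ 1 := by linarith [hu t ht]
    have h3 : (t * r) * (t * r) ≤ 1 * (t * r) := mul_le_mul_of_nonneg_right h2 h1
    have h4 : t ^ 2 * r ^ 2 = (t * r) * (t * r) := by ring
    rw [h4]
    linarith
  have hcont1 : ContinuousOn (fun t : ℝ => Φ t * (r / (1 - t ^ 2 * r ^ 2))) (Icc 0 1) := by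
    refine hΦc.mul (continuousOn_const.div (by fun_prop) ?_)
    intro t ht
    have h1 := hu t ht
    have h2 := hD t ht
    exact (lt_of_lt_of_le h1 h2).ne'
  have hcont2 : ContinuousOn (fun t : ℝ => 2 * r * X / ((1 - t * r) * (1 - t * r + X))) (Icc 0 1) := by
    refine continuousOn_const.div (by fun_prop) ?_
    intro t ht
    have h1 := hu t ht
    positivity
  have h1 : ∫ t in Icc (0 : ℝ) 1, Φ t * (r / (1 - t ^ 2 * r ^ 2)) ≤
      ∫ t in Icc (0 : ℝ) 1, 2 * r * X / ((1 - t * r) * (1 - t * r + X)) := by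
    refine setIntegral_mono_on (hcont1.integrableOn_compact isCompact_Icc)
      (hcont2.integrableOn_compact isCompact_Icc) measurableSet_Icc ?_
    intro t ht
    have hu' := hu t ht
    have hD' := hD t ht
    have hD0 : 0 < 1 - t ^ 2 * r ^ 2 := lt_of_lt_of_le hu' hD'
    obtain ⟨u, hue⟩ : ∃ u : ℝ, u = 1 - t * r := ⟨_, rfl⟩
    obtain ⟨D, hDe⟩ : ∃ D : ℝ, D = 1 - t ^ 2 * r ^ 2 := ⟨_, rfl⟩
    have e1 := hΦ0 t ht
    have e2 := hΦ1 t ht
    have e3 := hΦX t ht
    rw [← hue] at hu' hD'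
    rw [← hDe] at hD' hD0 e3
    rw [← hue, ← hDe]
    have e4 : Φ t ≤ X / u := e3.trans (div_le_div_of_nonneg_left hX hu' hD')
    have e5 : Φ t * (u + X) ≤ 2 * X := by
      rcases le_total X u with h | h
      · have e6 : Φ t * (u + X) ≤ X / u * (u + u) := by
          refine mul_le_mul e4 (by linarith) (by linarith) (by positivity)
        have e7 : X / u * (u + u) = 2 * X := by
          field_simp
          ring
        linarith
      · have e6 : Φ t * (u + X) ≤ 1 * (X + X) := mul_le_mul e2 (by linarith) (by linarith) zero_le_one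
        linarith
    have e8 : Φ t * (r / D) ≤ Φ t * (r / u) :=
      mul_le_mul_of_nonneg_left (div_le_div_of_nonneg_left hr0 hu' hD') e1
    refine e8.trans ?_
    rw [le_div_iff₀ (by positivity)]
    have e9 : Φ t * (r / u) * (u * (u + X)) = r * (Φ t * (u + X)) := by
      field_simp
    rw [e9]
    have e10 : r * (Φ t * (u + X)) ≤ r * (2 * X) := mul_le_mul_of_nonneg_left e5 hr0
    linarith
  have h2 : ∫ t in Icc (0 : ℝ) 1, 2 * r * X / ((1 - t * r) * (1 - t * r + X)) =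
      2 * (Real.log (1 - 1 * r + X) - Real.log (1 - 1 * r)) - 2 * (Real.log (1 - 0 * r + X) - Real.log (1 - 0 * r)) := by
    rw [integral_Icc_eq_integral_Ioc, ← intervalIntegral.integral_of_le zero_le_one]
    refine intervalIntegral.integral_eq_sub_of_hasDerivAt
      (f := fun t : ℝ => 2 * (Real.log (1 - t * r + X) - Real.log (1 - t * r))) ?_ ?_
    · intro t ht
      rw [uIcc_of_le zero_le_one] at ht
      have hu' := hu t ht
      have d0 : HasDerivAt (fun t : ℝ => 1 - t * r) (-r) t := by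
        have := ((hasDerivAt_id t).mul_const r).const_sub 1
        simpa using this
      have d1 : HasDerivAt (fun t : ℝ => 1 - t * r + X) (-r) t := d0.add_const X
      have d2 := (d1.log (by positivity)).sub (d0.log hu'.ne')
      have d3 := d2.const_mul 2
      refine d3.congr_deriv ?_
      have h3 : 1 - t * r ≠ 0 := hu'.ne'
      have h4 : 1 - t * r + X ≠ 0 := by positivity
      generalize 1 - t * r = u at h3 h4 ⊢
      rw [div_sub_div _ _ h4 h3, ← mul_div_assoc, div_eq_div_iff (mul_ne_zero h4 h3) (mul_ne_zero h3 h4)]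
      ring
    · refine ContinuousOn.intervalIntegrable ?_
      rw [uIcc_of_le zero_le_one]
      exact hcont2
  rw [h2] at h1
  refine h1.trans ?_
  have hr' : 0 < 1 - r := by linarith
  have h5 : Real.log (1 + X / (1 - r)) = Real.log (1 - r + X) - Real.log (1 - r) := by
    rw [← Real.log_div (by positivity) hr'.ne']
    congr 1
    field_simp
  have h6 : 0 ≤ Real.log (1 + X) := Real.log_nonneg (by linarith)
  rw [h5]
  have e1 : (1 : ℝ) - 1 * r = 1 - r := by ring
  have e2 : (1 : ℝ) - 0 * r = 1 := by ring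
  rw [e1, e2, Real.log_one]
  linarith

end Pool.Agent.MPca0fc2.TK
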