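import Mathlib
import Pool.Agent.Lib.MP_ca0fc2_an.TK.K2
import Pool.Agent.Lib.MP_ca0fc2_an.TK.K3
import Pool.Agent.Lib.MP_ca0fc2_an.TK.K4
import Pool.Agent.Lib.MP_ca0fc2_an.TE.G6

set_option autoImplicit false
set_option linter.unusedSectionVars false

open Metric Set MeasureTheory Filter Topology
open scoped InnerProductSpace ENNReal ContDiff

namespace Pool.Agent.MPca0fc2.TK

open Pool.Agent.MPca0fc2.PT
open Pool.Agent.MPca0fc2.QT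
open Pool.Agent.MPca0fc2.TS
open Pool.Agent.MPca0fc2.TE

variable {E : Type*} [NormedAddCommGroup E] [InnerProductSpace ℂ E]

variable [FiniteDimensional ℂ E] [MeasurableSpace E] [BorelSpace E]

private theorem K4b_path {P : E →L[ℂ] E} (h : Prj P) {z : E} (hz : ‖z‖ < 1) {t : ℝ} (h0 : 0 ≤ t)
    (h1 : t ≤ 1) : ‖pt P t z‖ < 1 ∧ 1 - ‖z‖ ^ 2 ≤ 1 - ‖pt P t z‖ ^ 2 := by
  obtain ⟨a1, a2, a3, _⟩ := Dp_anti h hz le_rfl h0 h1
  have e := Dp_eq h t z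
  have h2 : 1 - ‖z‖ ^ 2 ≤ 1 - ‖pt P t z‖ ^ 2 := by rw [e, ← a2]; exact a3
  refine ⟨?_, h2⟩
  have h3 : 0 < 1 - ‖z‖ ^ 2 := by rw [← a2]; exact a1
  nlinarith [norm_nonneg (pt P t z)]

private theorem K4b_inner {P : E →L[ℂ] E} (h : Prj P) {z : E} (hz : ‖z‖ < 1) {t : ℝ} (h0 : 0 ≤ t)
    (h1 : t ≤ 1) : ‖1 - ⟪pt P t z, z⟫_ℂ‖ ≤ 1 - ‖pt P t z‖ ^ 2 := by
  have hpy := pyth h z
  have hPz : ⟪P z, z⟫_ℂ = ((‖P z‖ ^ 2 : ℝ) : ℂ) := by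
    have h2 := h.sa (P z) z
    rw [h.idem] at h2
    rw [h2, inner_self_eq_norm_sq_to_K]
    push_cast
    rfl
  have hzz : ⟪z, z⟫_ℂ = ((‖z‖ ^ 2 : ℝ) : ℂ) := by
    rw [inner_self_eq_norm_sq_to_K]
    push_cast
    rfl
  have e : 1 - ⟪pt P t z, z⟫_ℂ = ((1 - ‖P z‖ ^ 2 - t * ‖z - P z‖ ^ 2 : ℝ) : ℂ) := by
    unfold pt
    rw [inner_add_left, inner_smul_left, inner_sub_left, hPz, hzz, hpy, Complex.conj_ofReal]
    push_cast
    ring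
  have hb : 0 ≤ 1 - ‖P z‖ ^ 2 - t * ‖z - P z‖ ^ 2 := by
    nlinarith [norm_nonneg z, sq_nonneg ‖z - P z‖]
  rw [e, Complex.norm_real, Real.norm_eq_abs, abs_of_nonneg hb, Dp_eq h]
  unfold Dp
  have ht2 : t ^ 2 ≤ t := by nlinarith
  have h5 : t ^ 2 * ‖z - P z‖ ^ 2 ≤ t * ‖z - P z‖ ^ 2 :=
    mul_le_mul_of_nonneg_right ht2 (sq_nonneg _)
  linarith

/-- The growth of the solutions. Proof. Let `A` be the constant of `Om_upH`, `ν = nuH μ H`, `y = pt P t z`, `0 ≤ t ≤ 1`: `‖y‖ < 1` (`rr_facts`, `Dp_eq`, see the proof of `TE.path_osc`), `⟪y, z⟫` is real and `1 - ⟪y, z⟫ = 1 - ‖P z‖² - t ‖z - P z‖² ≤ 1 - ‖y‖² ≤ ‖H y‖/c`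
(`TE.Prj`: `P z ⟂ z - P z`), and it is `≥ 0`; so `‖H z‖ ≤ C (1 + 1/c) ‖H y‖` (`tri` with `w := y`) and `‖H y‖ ≥ c (1 - ‖y‖²) = c (1 - ‖P z‖²)(1 - t² r²)`, `r = rr P z`. `B = A (C (1 + 1/c) + 1/c) `, `Φ t = ‖H z‖ * Om ν (m+3) y / B`: `Φ t ≤ (A/B) ‖H z‖/‖H y‖`, so
`Φ t ≤ 1` and `Φ t ≤ X₀/(1 - t² r²)`, `X₀ = ‖H z‖/(1 - ‖P z‖²)`; with `X = min X₀ 1`: `Φ t ≤ X/(1 - t² r²)` (as `1 ≤ 1/(1 - t² r²)`). `one_int` (continuity: `Om_cont`/`G6_cont`, see TE/G6.lean; `Om_cont` for `OnB ν`: `nuH_OnB`). At the end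
`X/(1 - r) = (1 + r) X/(1 - r²) ≤ 2 min ‖H z‖ (1 - ‖P z‖²)/(1 - ‖z‖²)` (`(1 - ‖P z‖²)(1 - r²) = 1 - ‖z‖²`), and `log (1 + 2 s) ≤ 2 log (1 + s)`. The first term is `≤ A` by `Om_upH`. -/
theorem GI_H (μ : Measure E) [μ.IsAddHaarMeasure] {m : ℕ} (hm : 1 ≤ m)
    (hdim : Module.finrank ℂ E = m + 1) {c C : ℝ} (hc : 0 < c) (hC : 0 < C) :
    ∃ B : ℝ, 0 < B ∧ ∀ H : E → ℂ, Adm c C H → ∀ P : E →L[ℂ] E, Prj P → ∀ z ∈ ball (0 : E) 1,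
      ‖H z‖ * (Om (nuH μ H) (m + 3) z + GI (Om (nuH μ H) (m + 3)) P z) ≤
        B * (1 + Real.log (1 + min ‖H z‖ (1 - ‖P z‖ ^ 2) / (1 - ‖z‖ ^ 2))) := by
  obtain ⟨A, hA, hOm⟩ := Om_upH μ hm hdim hc hC
  set B0 : ℝ := A * (C * (1 + 1 / c) + 1 / c) with hB0
  have hB0pos : 0 < B0 := by positivity
  refine ⟨A + 4 * B0, by positivity, ?_⟩
  intro H hH P hP z hzb
  have hz : ‖z‖ < 1 := mem_ball_zero_iff.1 hzb
  obtain ⟨hr0, hr1, hb, _, _⟩ := rr_facts hP hz 1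
  set r : ℝ := rr P z with hr
  set b : ℝ := 1 - ‖P z‖ ^ 2 with hbdef
  have hD : b * (1 - r ^ 2) = 1 - ‖z‖ ^ 2 := by
    have h1 := (rr_facts hP hz 1).2.2.2.2
    have h2 := (Dp_anti hP hz le_rfl zero_le_one le_rfl).2.1
    rw [h2, one_pow, one_mul] at h1
    exact h1.symm
  have hDpos : 0 < 1 - ‖z‖ ^ 2 := by
    nlinarith [norm_nonneg z]
  have hr2 : 0 < 1 - r ^ 2 := by nlinarith
  have hHpos : ∀ y ∈ ball (0 : E) 1, 0 < ‖H y‖ := by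
    intro y hy
    have h1 := hH.lo y hy
    have h2 : ‖y‖ < 1 := mem_ball_zero_iff.1 hy
    have h3 : 0 < c * (1 - ‖y‖ ^ 2) := by
      apply mul_pos hc
      nlinarith [norm_nonneg y]
    linarith
  have hν : OnB (nuH μ H) := nuH_OnB μ hc hH
  have hpt : ∀ t ∈ Icc (0 : ℝ) 1, pt P t z ∈ ball (0 : E) 1 := fun t ht =>
    mem_ball_zero_iff.2 (K4b_path hP hz ht.1 ht.2).1
  set Φ : ℝ → ℝ := fun t => ‖H z‖ * Om (nuH μ H) (m + 3) (pt P t z) / B0 with hΦ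
  set X : ℝ := min (‖H z‖ / b) 1 with hX
  have hX0 : 0 ≤ X := le_min (by positivity) zero_le_one
  have hptc : Continuous fun t : ℝ => pt P t z := by
    unfold pt
    exact continuous_const.add ((Complex.continuous_ofReal).smul continuous_const)
  have hΦc : ContinuousOn Φ (Icc 0 1) := by
    have h1 : ContinuousOn (fun t : ℝ => Om (nuH μ H) (m + 3) (pt P t z)) (Icc 0 1) :=
      (Om_cont hν (m + 3)).comp hptc.continuousOn hpt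
    exact (continuousOn_const.mul h1).div_const _
  have hΦ0 : ∀ t ∈ Icc (0 : ℝ) 1, 0 ≤ Φ t := by
    intro t ht
    have := Om_nonneg (ν := nuH μ H) (M := m + 3) (mem_ball_zero_iff.1 (hpt t ht))
    simp only [hΦ]
    positivity
  have hOmle : ∀ t ∈ Icc (0 : ℝ) 1, Om (nuH μ H) (m + 3) (pt P t z) ≤ A / ‖H (pt P t z)‖ := by
    intro t ht
    rw [le_div_iff₀ (hHpos _ (hpt t ht)), mul_comm]
    exact hOm H hH _ (hpt t ht)
  have htri : ∀ t ∈ Icc (0 : ℝ) 1, ‖H z‖ ≤ C * (1 + 1 / c) * ‖H (pt P t z)‖ := by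
    intro t ht
    have h1 := hH.tri z hzb (pt P t z) (hpt t ht)
    have h2 := K4b_inner hP hz ht.1 ht.2
    have h3 := hH.lo _ (hpt t ht)
    have h4 : 1 - ‖pt P t z‖ ^ 2 ≤ 1 / c * ‖H (pt P t z)‖ := by
      rw [one_div, ← div_eq_inv_mul, le_div_iff₀ hc]
      linarith
    calc ‖H z‖ ≤ C * (‖H (pt P t z)‖ + ‖1 - ⟪pt P t z, z⟫_ℂ‖) := h1
      _ ≤ C * (‖H (pt P t z)‖ + 1 / c * ‖H (pt P t z)‖) := by
          apply mul_le_mul_of_nonneg_left _ hC.le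
          linarith
      _ = C * (1 + 1 / c) * ‖H (pt P t z)‖ := by ring
  have hΦ1 : ∀ t ∈ Icc (0 : ℝ) 1, Φ t ≤ 1 := by
    intro t ht
    simp only [hΦ]
    rw [div_le_one hB0pos]
    have hp := hHpos _ (hpt t ht)
    calc ‖H z‖ * Om (nuH μ H) (m + 3) (pt P t z) ≤
        (C * (1 + 1 / c) * ‖H (pt P t z)‖) * (A / ‖H (pt P t z)‖) :=
          mul_le_mul (htri t ht) (hOmle t ht)
            (Om_nonneg (mem_ball_zero_iff.1 (hpt t ht))) (by positivity)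
      _ = A * (C * (1 + 1 / c)) := by field_simp
      _ ≤ B0 := by
          rw [hB0]
          apply mul_le_mul_of_nonneg_left _ hA.le
          have : 0 < 1 / c := by positivity
          linarith
  have hker : ∀ t ∈ Icc (0 : ℝ) 1, 0 < 1 - t ^ 2 * r ^ 2 ∧ 1 - t ^ 2 * r ^ 2 ≤ 1 ∧ 1 - r ^ 2 ≤ 1 - t ^ 2 * r ^ 2 := by
    intro t ht
    have ht2 : t ^ 2 ≤ 1 := by nlinarith [ht.1, ht.2]
    have h1 : t ^ 2 * r ^ 2 ≤ 1 * r ^ 2 := mul_le_mul_of_nonneg_right ht2 (sq_nonneg r)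
    have h2 : 0 ≤ t ^ 2 * r ^ 2 := by positivity
    refine ⟨by linarith, by linarith, by linarith⟩
  have hΦX : ∀ t ∈ Icc (0 : ℝ) 1, Φ t ≤ X / (1 - t ^ 2 * r ^ 2) := by
    intro t ht
    obtain ⟨k1, k2, _⟩ := hker t ht
    have hA1 : Φ t ≤ (‖H z‖ / b) / (1 - t ^ 2 * r ^ 2) := by
      have hlo := hH.lo _ (hpt t ht)
      have hDe : 1 - ‖pt P t z‖ ^ 2 = b * (1 - t ^ 2 * r ^ 2) := by
        rw [Dp_eq hP]
        exact (rr_facts hP hz t).2.2.2.2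
      rw [hDe] at hlo
      have hp := hHpos _ (hpt t ht)
      have hlp : 0 < c * (b * (1 - t ^ 2 * r ^ 2)) := by positivity
      simp only [hΦ]
      rw [div_le_iff₀ hB0pos]
      calc ‖H z‖ * Om (nuH μ H) (m + 3) (pt P t z) ≤ ‖H z‖ * (A / ‖H (pt P t z)‖) :=
            mul_le_mul_of_nonneg_left (hOmle t ht) (norm_nonneg _)
        _ ≤ ‖H z‖ * (A / (c * (b * (1 - t ^ 2 * r ^ 2)))) := by
            apply mul_le_mul_of_nonneg_left _ (norm_nonneg _)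
            exact div_le_div_of_nonneg_left hA.le hlp hlo
        _ = ‖H z‖ / b / (1 - t ^ 2 * r ^ 2) * (A * (1 / c)) := by field_simp
        _ ≤ ‖H z‖ / b / (1 - t ^ 2 * r ^ 2) * B0 := by
            apply mul_le_mul_of_nonneg_left _ (by positivity)
            rw [hB0]
            apply mul_le_mul_of_nonneg_left _ hA.le
            have : 0 < C * (1 + 1 / c) := by positivity
            linarith
    rcases le_total (‖H z‖ / b) 1 with hle | hle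
    · rw [hX, min_eq_left hle]
      exact hA1
    · rw [hX, min_eq_right hle]
      refine (hΦ1 t ht).trans ?_
      rw [le_div_iff₀ k1]
      linarith
  have hint := one_int hr0 hr1 hX0 hΦc hΦ0 hΦ1 hΦX
  have hGI : ‖H z‖ * GI (Om (nuH μ H) (m + 3)) P z =
      B0 * ∫ t in Icc (0 : ℝ) 1, Φ t * (r / (1 - t ^ 2 * r ^ 2)) := by
    unfold GI
    rw [← hr, ← MeasureTheory.integral_const_mul, ← MeasureTheory.integral_const_mul]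
    refine integral_congr_ae (Filter.Eventually.of_forall fun t => ?_)
    simp only [hΦ]
    have hxy : ∀ x y : ℝ, B0 * (x / B0 * y) = x * y := fun x y => by field_simp
    rw [hxy]
    ring
  set s : ℝ := min ‖H z‖ (1 - ‖P z‖ ^ 2) / (1 - ‖z‖ ^ 2) with hs
  have hs0 : 0 ≤ s := div_nonneg (le_min (norm_nonneg _) hb.le) hDpos.le
  have hXs : X / (1 - r) ≤ 2 * s := by
    have h1 : s = X / (1 - r ^ 2) := by
      rw [hs, ← hbdef, ← hD, hX]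
      rw [show min (‖H z‖ / b) 1 = min ‖H z‖ b / b by
        rw [← min_div_div_right hb.le, div_self hb.ne']]
      field_simp
    rw [h1, ← mul_div_assoc, div_le_div_iff₀ (by linarith) hr2]
    have h2 : 1 - r ^ 2 = (1 - r) * (1 + r) := by ring
    rw [h2]
    have h3 : 0 ≤ X * (1 - r) := mul_nonneg hX0 (by linarith)
    nlinarith
  have hlog : Real.log (1 + X / (1 - r)) ≤ 2 * Real.log (1 + s) := by
    have h1 : 0 ≤ X / (1 - r) := div_nonneg hX0 (by linarith)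
    rw [← Real.log_rpow (by linarith)]
    apply Real.log_le_log (by linarith)
    norm_num
    nlinarith
  have hl0 : 0 ≤ Real.log (1 + s) := Real.log_nonneg (by linarith)
  have hfirst := hOm H hH z hzb
  rw [mul_add, hGI]
  have h5 : B0 * ∫ t in Icc (0 : ℝ) 1, Φ t * (r / (1 - t ^ 2 * r ^ 2)) ≤
      B0 * (2 * (2 * Real.log (1 + s))) := by
    apply mul_le_mul_of_nonneg_left _ hB0pos.le
    linarith
  nlinarith [mul_nonneg hA.le hl0, mul_nonneg hB0pos.le hl0]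

/-- Local bound, uniform in the level. Proof. As in `TE.GI_loc`: for `y = pt P t z`, `‖y‖ ≤ ‖z‖`, `Wk ν M θ k y = Om ν M (rt θ k • y) ≤ A/‖H (rt θ k • y)‖ ≤ A/(c (1 - ‖y‖²)) ≤ A/(c (1 - ‖z‖²))` (`Wk_eq`, `Om_upH`, `lo`), and the kernel of `GI` is `≤ 1/(1 - ‖z‖²)`.
`‖H (rt θ k • z)‖ ≤ C`. -/
theorem loc_H (μ : Measure E) [μ.IsAddHaarMeasure] {m : ℕ} (hm : 1 ≤ m)
    (hdim : Module.finrank ℂ E = m + 1) {c C : ℝ} (hc : 0 < c) (hC : 0 < C) {θ : ℝ} (h0 : 0 < θ)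
    (h1 : θ < 1) :
    ∃ B : ℝ, 0 < B ∧ ∀ H : E → ℂ, Adm c C H → ∀ P : E →L[ℂ] E, Prj P → ∀ k : ℕ,
      ∀ z ∈ ball (0 : E) 1,
        ‖H ((rt θ k : ℂ) • z)‖ * (Wk (nuH μ H) (m + 3) θ k z + GI (Wk (nuH μ H) (m + 3) θ k) P z) ≤
          B * (1 / (1 - ‖z‖ ^ 2)) ^ 2 := by
  obtain ⟨A, hA, hOm⟩ := Om_upH μ hm hdim hc hC
  refine ⟨2 * C * A / c, by positivity, ?_⟩
  intro H hH P hP k z hzb
  have hz : ‖z‖ < 1 := mem_ball_zero_iff.1 hzb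
  have hD : 0 < 1 - ‖z‖ ^ 2 := by nlinarith [norm_nonneg z]
  have hD1 : 1 - ‖z‖ ^ 2 ≤ 1 := by nlinarith [sq_nonneg ‖z‖]
  have hθ0 : 0 ≤ θ ^ k := pow_nonneg h0.le k
  have hθ1 : θ ^ k ≤ 1 := pow_le_one₀ h0.le h1.le
  have hrt : 0 ≤ rt θ k ∧ rt θ k ≤ 1 := by
    unfold rt
    constructor <;> linarith
  have hsm : ∀ y : E, ‖y‖ < 1 → ‖((rt θ k : ℂ) • y)‖ ≤ ‖y‖ := by
    intro y _
    rw [norm_smul, Complex.norm_real, Real.norm_eq_abs, abs_of_nonneg hrt.1]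
    exact mul_le_of_le_one_left (norm_nonneg _) hrt.2
  have hW : ∀ y : E, ‖y‖ < 1 → 1 - ‖z‖ ^ 2 ≤ 1 - ‖y‖ ^ 2 →
      0 ≤ Wk (nuH μ H) (m + 3) θ k y ∧ Wk (nuH μ H) (m + 3) θ k y ≤ A / (c * (1 - ‖z‖ ^ 2)) := by
    intro y hy hyz
    have h2 := hsm y hy
    have h3 : ((rt θ k : ℂ) • y) ∈ ball (0 : E) 1 := mem_ball_zero_iff.2 (lt_of_le_of_lt h2 hy)
    have h4 := hH.lo _ h3
    have h5 : c * (1 - ‖z‖ ^ 2) ≤ ‖H ((rt θ k : ℂ) • y)‖ := by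
      refine le_trans ?_ h4
      apply mul_le_mul_of_nonneg_left _ hc.le
      have : ‖((rt θ k : ℂ) • y)‖ ^ 2 ≤ ‖y‖ ^ 2 := by gcongr
      linarith
    have h6 : 0 < c * (1 - ‖z‖ ^ 2) := by positivity
    have h7 : 0 < ‖H ((rt θ k : ℂ) • y)‖ := lt_of_lt_of_le h6 h5
    rw [Wk_eq]
    refine ⟨Om_nonneg (mem_ball_zero_iff.1 h3), ?_⟩
    have h8 := hOm H hH _ h3
    calc Om (nuH μ H) (m + 3) ((rt θ k : ℂ) • y) ≤ A / ‖H ((rt θ k : ℂ) • y)‖ := by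
          rw [le_div_iff₀ h7, mul_comm]
          exact h8
      _ ≤ A / (c * (1 - ‖z‖ ^ 2)) := div_le_div_of_nonneg_left hA.le h6 h5
  have hC0 : 0 ≤ A / (c * (1 - ‖z‖ ^ 2)) := by positivity
  obtain ⟨hr0, hr1, hb, _, _⟩ := rr_facts hP hz 1
  have hDe : (1 - ‖P z‖ ^ 2) * (1 - rr P z ^ 2) = 1 - ‖z‖ ^ 2 := by
    have g1 := (rr_facts hP hz 1).2.2.2.2
    have g2 := (Dp_anti hP hz le_rfl zero_le_one le_rfl).2.1
    rw [g2, one_pow, one_mul] at g1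
    exact g1.symm
  have hr2 : 0 < 1 - rr P z ^ 2 := by nlinarith
  have hDr : 1 - ‖z‖ ^ 2 ≤ 1 - rr P z ^ 2 := by
    rw [← hDe]
    apply mul_le_of_le_one_left hr2.le
    nlinarith [sq_nonneg ‖P z‖]
  have hGI : GI (Wk (nuH μ H) (m + 3) θ k) P z ≤ A / (c * (1 - ‖z‖ ^ 2)) * (1 / (1 - ‖z‖ ^ 2)) := by
    unfold GI
    have hb1 : ∀ t ∈ Icc (0 : ℝ) 1, ‖Wk (nuH μ H) (m + 3) θ k (pt P t z) *
        (rr P z / (1 - t ^ 2 * rr P z ^ 2))‖ ≤ A / (c * (1 - ‖z‖ ^ 2)) * (1 / (1 - ‖z‖ ^ 2)) := by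
      intro t ht
      obtain ⟨g1, g2⟩ := K4b_path hP hz ht.1 ht.2
      obtain ⟨w0, w1⟩ := hW _ g1 g2
      have ht2 : t ^ 2 ≤ 1 := by nlinarith [ht.1, ht.2]
      have k1 : t ^ 2 * rr P z ^ 2 ≤ 1 * rr P z ^ 2 := mul_le_mul_of_nonneg_right ht2 (sq_nonneg _)
      have k2 : 1 - ‖z‖ ^ 2 ≤ 1 - t ^ 2 * rr P z ^ 2 := by linarith
      have k3 : 0 ≤ rr P z / (1 - t ^ 2 * rr P z ^ 2) := div_nonneg hr0 (by linarith)
      have k4 : rr P z / (1 - t ^ 2 * rr P z ^ 2) ≤ 1 / (1 - ‖z‖ ^ 2) :=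
        div_le_div₀ zero_le_one hr1.le hD k2
      rw [norm_mul, Real.norm_of_nonneg w0, Real.norm_of_nonneg k3]
      exact mul_le_mul w1 k4 k3 hC0
    have h9 := MeasureTheory.norm_setIntegral_le_of_norm_le_const (μ := volume) (s := Icc (0 : ℝ) 1)
      (by simp) hb1
    have h10 : volume.real (Icc (0 : ℝ) 1) = 1 := by simp [Measure.real]
    rw [h10, mul_one] at h9
    exact (Real.le_norm_self _).trans h9
  have hHz : ‖H ((rt θ k : ℂ) • z)‖ ≤ C :=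
    hH.up _ (mem_ball_zero_iff.2 (lt_of_le_of_lt (hsm z hz) hz))
  obtain ⟨w0, w1⟩ := hW z hz le_rfl
  have hsum : Wk (nuH μ H) (m + 3) θ k z + GI (Wk (nuH μ H) (m + 3) θ k) P z ≤
      2 * (A / c) * (1 / (1 - ‖z‖ ^ 2)) ^ 2 := by
    have e1 : A / (c * (1 - ‖z‖ ^ 2)) = A / c * (1 / (1 - ‖z‖ ^ 2)) := by field_simp
    rw [e1] at w1 hGI
    have hq1 : 1 ≤ 1 / (1 - ‖z‖ ^ 2) := by
      rw [le_div_iff₀ hD]
      linarith
    have hAc : 0 ≤ A / c := by positivity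
    have hq2 : A / c * (1 / (1 - ‖z‖ ^ 2)) ≤ A / c * (1 / (1 - ‖z‖ ^ 2)) * (1 / (1 - ‖z‖ ^ 2)) :=
      le_mul_of_one_le_right (by positivity) hq1
    nlinarith
  have hnn : 0 ≤ 2 * (A / c) * (1 / (1 - ‖z‖ ^ 2)) ^ 2 := by positivity
  calc ‖H ((rt θ k : ℂ) • z)‖ * (Wk (nuH μ H) (m + 3) θ k z + GI (Wk (nuH μ H) (m + 3) θ k) P z)
      ≤ ‖H ((rt θ k : ℂ) • z)‖ * (2 * (A / c) * (1 / (1 - ‖z‖ ^ 2)) ^ 2) :=
        mul_le_mul_of_nonneg_left hsum (norm_nonneg _)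
    _ ≤ C * (2 * (A / c) * (1 / (1 - ‖z‖ ^ 2)) ^ 2) := mul_le_mul_of_nonneg_right hHz hnn
    _ = 2 * C * A / c * (1 / (1 - ‖z‖ ^ 2)) ^ 2 := by ring

end Pool.Agent.MPca0fc2.TK
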