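import Mathlib
import Pool.Agent.Lib.MP_ca0fc2_an.TK.K5a

set_option autoImplicit false
set_option linter.unusedSectionVars false

open Metric Set MeasureTheory Filter Topology
open scoped InnerProductSpace ENNReal ContDiff

namespace Pool.Agent.MPca0fc2.TK

open Pool.Agent.MPca0fc2.PT
open Pool.Agent.MPca0fc2.QT
open Pool.Agent.MPca0fc2.TS
open Pool.Agent.MPca0fc2.TE

section aux

variable {E : Type*} [NormedAddCommGroup E] [InnerProductSpace ℂ E]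
variable {V : Type*} [NormedAddCommGroup V] [NormedSpace ℂ V]

private theorem K5_Wk [MeasurableSpace E] (ν : Measure E) (M : ℕ) {θ : ℝ} (h0 : 0 < θ)
    (h1 : θ < 1) (k : ℕ) {w : E} (hw : w ∈ ball (0 : E) 1) : 0 ≤ Wk ν M θ k w := by
  have hz : ‖w‖ < 1 := mem_ball_zero_iff.mp hw
  have h2 : 0 < θ ^ k := pow_pos h0 k
  have h3 : θ ^ k ≤ 1 := pow_le_one₀ h0.le h1.le
  have h4 : rt θ k ^ 2 ≤ 1 := by
    unfold rt
    nlinarith
  have h5 : ‖w‖ ^ 2 ≤ 1 := by nlinarith [norm_nonneg w]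
  have h6 : 0 ≤ dl θ k w := by
    unfold dl
    nlinarith [mul_le_mul h4 h5 (sq_nonneg ‖w‖) zero_le_one]
  unfold Wk
  exact mul_nonneg (Real.rpow_nonneg h6 _) (PP_nonneg _ _ _)

private theorem K5_sum {N : ℕ} (K : Car (Fin N → ℂ) V) (G : (Fin N → ℂ) →L[ℂ] ℂ) (x : V) :
    G (fun j => K.ω (K.c (ContinuousLinearMap.proj j) x)) = K.ω (K.c G x) := by
  have e : G = ∑ j, (G (Pi.single j (1 : ℂ))) • (ContinuousLinearMap.proj j :
      (Fin N → ℂ) →L[ℂ] ℂ) := by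
    ext y
    have hy : y = ∑ j, y j • (Pi.single j (1 : ℂ) : Fin N → ℂ) := by
      ext i
      simp [Finset.sum_apply, Pi.single_apply]
    conv_lhs => rw [hy]
    simp only [map_sum, map_smul, ContinuousLinearMap.sum_apply, ContinuousLinearMap.smul_apply,
      ContinuousLinearMap.proj_apply, smul_eq_mul]
    exact Finset.sum_congr rfl fun j _ => mul_comm _ _
  obtain ⟨a, ha⟩ : ∃ a : Fin N → ℂ, a = fun j => G (Pi.single j (1 : ℂ)) := ⟨_, rfl⟩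
  have e' : G = ∑ j, a j • (ContinuousLinearMap.proj j : (Fin N → ℂ) →L[ℂ] ℂ) := by
    rw [ha]; exact e
  rw [e']
  simp only [map_sum, map_smul, ContinuousLinearMap.sum_apply, ContinuousLinearMap.smul_apply,
    ContinuousLinearMap.proj_apply, smul_eq_mul]

end aux

variable {E : Type*} [NormedAddCommGroup E] [InnerProductSpace ℂ E]

variable [FiniteDimensional ℂ E] [MeasurableSpace E] [BorelSpace E]

/-- One level, with an admissible weight. Proof. Copy the proof of `TE.levelE` (TE/B6.lean; the private lemmas of that file must be copied too, with the prefix `K5_`): `K`, `W₁, W₂` (`descentE`), `η := Zs K σ F W₁`, `hηc, hηa, hηd, hηb, hηp` are the same;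
`BdG θ k (1 + θ^(k+1)/4) (fun _ => C₁ (1 + B) C₀) η` as `Wk ν M θ k w ≤ C₀` (`LD.Wb`); instead of `osc0` use `div_sol` (TK/K5a.lean), which gives `T` with the same properties (`hTd`, `hT01`, `T (P w) = 0`). The rest (the function `H` there, call it `G` here, the holomorphy, `c_Ph`,
the values on the image of `P`) is unchanged, and the bound is `‖G w‖ ≤ ‖K.a‖ C₀ ‖K.Ω‖ + ‖K.c‖ C₀ ‖T w‖`. -/
theorem levelH (μ : Measure E) [μ.IsAddHaarMeasure] {m : ℕ} (hm : 1 ≤ m)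
    (hdim : Module.finrank ℂ E = m + 1) (N : ℕ) {θ : ℝ} (h0 : 0 < θ) (h1 : θ < 1) {C₀ : ℝ}
    (hC₀ : 0 < C₀) (M : ℕ) {c C : ℝ} (hc : 0 < c) (hC : 0 < C) :
    ∃ C' : ℝ, 0 < C' ∧ ∀ ν : Measure E, OnB ν → ∀ k : ℕ, 1 ≤ k →
      ∀ (P : E →L[ℂ] E) (σ : E → Fin N → ℂ) (F : E → (Fin N → ℂ) →L[ℂ] ℂ),
      LD θ ν M k C₀ P σ F → ∀ H : E → ℂ, Adm c C H → ∃ h : Fin N → E → ℂ,
        (∀ j, DifferentiableOn ℂ (h j) (ball 0 1)) ∧ ∀ w ∈ ball (0 : E) 1,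
          F w (fun j => h j w) = 1 ∧ (∀ j, h j (P w) = σ (P w) j) ∧
          ∀ j, ‖h j w‖ ≤ C' * (1 + ‖H ((rt θ k : ℂ) • w)‖ *
            (Wk (nuH μ H) (m + 3) θ k w + GI (Wk (nuH μ H) (m + 3) θ k) P w)) := by
  obtain ⟨d, ⟨K⟩⟩ := exists_carI N
  obtain ⟨B, hB, hD⟩ := descentE (V := EuclideanSpace ℂ (Fin d)) μ hm hdim K h0 h1 hC₀ M
  obtain ⟨C₁, hC₁, hZ⟩ := Zs_bd (E := E) (V := EuclideanSpace ℂ (Fin d)) K h0 h1 hC₀ M 0
  obtain ⟨C₂, hC₂, hO⟩ := div_sol (V := EuclideanSpace ℂ (Fin d)) μ hm hdim h0 h1 hc hC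
  have hKc : 0 ≤ ‖K.c‖ := K.c.opNorm_nonneg
  have hKa : 0 ≤ ‖K.a‖ := K.a.opNorm_nonneg
  have hKω : 0 ≤ ‖K.ω‖ := K.ω.opNorm_nonneg
  obtain ⟨L, hL⟩ : ∃ L : ℝ, L = C₂ * (C₁ * (1 + B) * C₀) := ⟨_, rfl⟩
  have hL0 : 0 ≤ L := by rw [hL]; positivity
  obtain ⟨Q, hQ⟩ : ∃ Q : ℝ, Q = ‖K.a‖ * C₀ * ‖K.Ω‖ + ‖K.c‖ * C₀ * L := ⟨_, rfl⟩
  have hQ0 : 0 ≤ Q := by rw [hQ]; positivity
  refine ⟨‖K.ω‖ * ‖K.c‖ * Q + 1, by positivity, ?_⟩
  intro ν hν k hk P σ F hLD H₀ hAdm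
  obtain ⟨W₁, W₂, hW1c, hW1, hW1b⟩ := hD ν hν k hk P σ F hLD
  have hθk : 0 < θ ^ (k + 1) := pow_pos h0 _
  have hR₁ : 1 + 3 * θ ^ (k + 1) / 8 ≤ RC θ k := by unfold RC; linarith
  have hR₂ : 1 + θ ^ (k + 1) / 4 ≤ RC θ k := by unfold RC; linarith
  have hone : ∀ z ∈ ball (0 : E) 1, ‖z‖ < RC θ k := fun z hz =>
    lt_of_lt_of_le (mem_ball_zero_iff.mp hz) (by linarith)
  obtain ⟨η, hη⟩ : ∃ η : E → E [⋀^Fin 1]→L[ℝ] (EuclideanSpace ℂ (Fin d)),
      η = Zs (r := 0) K σ F W₁ := ⟨_, rfl⟩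
  have hηc : ContDiffOn ℝ 1 η (ball 0 (1 + 3 * θ ^ (k + 1) / 8)) := by
    rw [hη]; exact Zs_c1 hLD hR₁ hW1c
  have hηa : ∀ w ∈ ball (0 : E) (1 + 3 * θ ^ (k + 1) / 8), Anti (η w) := fun w hw => by
    rw [hη]; exact Zs_anti (hW1 w hw).1
  have hηd : ∀ w ∈ ball (0 : E) (1 + 3 * θ ^ (k + 1) / 8), QT.db η w = 0 := fun w hw => by
    rw [hη]
    refine Zs_closed (W' := W₂) hLD (lt_of_lt_of_le (mem_ball_zero_iff.mp hw) hR₁) ?_
      (hW1 w hw).2.1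
    exact (hW1c.contDiffAt (isOpen_ball.mem_nhds hw)).differentiableAt (by norm_num)
  have hηb : BdG θ k (1 + θ ^ (k + 1) / 4) (fun w => C₁ * (1 + B) * Wk ν M θ k w) η := by
    intro w hw v
    rw [hη]
    exact hZ ν k P σ F hLD _ B W₁ hR₁ hB.le hW1b w (by linarith) v
  have hηp : ∀ w ∈ ball (0 : E) 1, ∀ v, η (P w) (fun _ => P v) = 0 := fun w hw v => by
    have hw' : w ∈ ball (0 : E) (1 + 3 * θ ^ (k + 1) / 8) :=
      ball_subset_ball (by linarith) hw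
    have h2 := Zs_pbk (K := K) (W := W₁) hLD (hone w hw) (hW1 w hw').2.2
    rw [← hη] at h2
    have h3 := pbk_apply P η w (fun _ => v)
    rw [h2] at h3
    exact h3.symm
  have hηB : BdG θ k (1 + θ ^ (k + 1) / 4) (fun _ => C₁ * (1 + B) * C₀) η := by
    intro w hw v
    have hwC : ‖w‖ < RC θ k := lt_of_lt_of_le hw hR₂
    refine (hηb w hw v).trans ?_
    apply mul_le_mul_of_nonneg_right
    · exact mul_le_mul_of_nonneg_left (hLD.Wb w hwC) (by positivity)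
    · exact Finset.prod_nonneg fun i _ => gau_nonneg (dl_pos h0 h1 hwC).le w (v i)
  obtain ⟨T, hTd, hT01, hTP, hTb⟩ := hO H₀ hAdm P hLD.prj k hk (C₁ * (1 + B) * C₀) η
    (by positivity) hηc hηa hηd hηB hηp
  obtain ⟨W, hW0, hWW1⟩ : ∃ W : (r : ℕ) → E → E [⋀^Fin r]→L[ℝ] (EuclideanSpace ℂ (Fin d)),
      (W 0 = fun w => cst E (T w)) ∧ W 1 = W₁ :=
    ⟨fun r => match r with
      | 0 => fun w => cst E (T w)
      | 1 => W₁
      | _ + 2 => fun _ => 0, rfl, rfl⟩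
  have hW0d : ∀ z ∈ ball (0 : E) 1, DifferentiableAt ℝ (W 0) z := by
    intro z hz
    rw [hW0]
    exact (cstL E (EuclideanSpace ℂ (Fin d))).differentiableAt.comp z (hTd z hz)
  have hPd : ∀ z ∈ ball (0 : E) 1, QT.db (QT.Ph K σ F W) z = 0 := by
    intro z hz
    apply db_Ph K (hLD.sol z (hone z hz)) (hW0d z hz)
    rw [hW0, hWW1]
    ext v
    rw [db_cst (hTd z hz), hT01 z hz, hη]
    have ev : (fun _ => v 0) = v := funext fun i => by
      rw [show i = 0 from Subsingleton.elim (α := Fin 1) i 0]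
    rw [ev]
    rfl
  have hHd : DifferentiableOn ℂ
      (fun w => evz E (EuclideanSpace ℂ (Fin d)) (QT.Ph K σ F W w)) (ball 0 1) := by
    intro z hz
    exact (holo_of_db (Ph_diff K (hLD.sol z (hone z hz)) (hW0d z hz))
      (hPd z hz)).differentiableWithinAt
  obtain ⟨H, hH⟩ : ∃ H : E → EuclideanSpace ℂ (Fin d), H = fun w =>
    evz E (EuclideanSpace ℂ (Fin d)) (QT.Ph K σ F W w) := ⟨_, rfl⟩
  rw [← hH] at hHd
  obtain ⟨e₀, he₀⟩ : ∃ e₀ : Fin 0 → E, e₀ = fun i => i.elim0 := ⟨_, rfl⟩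
  have hHv : ∀ z, H z = QT.Ph K σ F W z e₀ := by
    intro z
    rw [hH]
    exact evz_apply _ _
  have hHe : ∀ z, H z = K.a (σ z) K.Ω - K.c (F z) (T z) := by
    intro z
    rw [hHv z]
    unfold QT.Ph
    rw [ContinuousAlternatingMap.sub_apply, opc_apply, hW0]
    rfl
  refine ⟨fun j z => K.ω (K.c (ContinuousLinearMap.proj j) (H z)), ?_, ?_⟩
  · intro j
    exact K.ω.differentiable.comp_differentiableOn
      ((K.c (ContinuousLinearMap.proj j)).differentiable.comp_differentiableOn hHd)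
  · intro z hz
    have hz1 : ‖z‖ < 1 := mem_ball_zero_iff.mp hz
    refine ⟨?_, ?_, ?_⟩
    · rw [K5_sum]
      have h1 := c_Ph K (W := W) (hLD.sol z (hone z hz)) e₀
      rw [← hHv z] at h1
      rw [h1]
      exact K.ωΩ
    · intro j
      have hT0 : T (P z) = 0 := hTP z hz
      have h2 := K.ca (ContinuousLinearMap.proj j) (σ (P z)) K.Ω
      rw [K.cΩ, map_zero, add_zero] at h2
      simp only [hHe, hT0, map_zero, sub_zero]
      rw [h2, map_smul, K.ωΩ, smul_eq_mul, mul_one]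
      rfl
    · intro j
      have hWk0 : ∀ y ∈ ball (0 : E) 1, 0 ≤ Wk (nuH μ H₀) (m + 3) θ k y := fun y hy =>
        K5_Wk _ _ h0 h1 k hy
      have hG0 : 0 ≤ GI (Wk (nuH μ H₀) (m + 3) θ k) P z := GI_nonneg hLD.prj hWk0 hz1
      have t3 : ‖T z‖ ≤ L * (‖H₀ ((rt θ k : ℂ) • z)‖ *
          (Wk (nuH μ H₀) (m + 3) θ k z + GI (Wk (nuH μ H₀) (m + 3) θ k) P z)) := by
        rw [hL]
        exact hTb z hz
      have hX0 : 0 ≤ ‖H₀ ((rt θ k : ℂ) • z)‖ *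
          (Wk (nuH μ H₀) (m + 3) θ k z + GI (Wk (nuH μ H₀) (m + 3) θ k) P z) :=
        mul_nonneg (norm_nonneg _) (add_nonneg (hWk0 z hz) hG0)
      obtain ⟨X, hX⟩ : ∃ X : ℝ, X = ‖H₀ ((rt θ k : ℂ) • z)‖ *
          (Wk (nuH μ H₀) (m + 3) θ k z + GI (Wk (nuH μ H₀) (m + 3) θ k) P z) := ⟨_, rfl⟩
      rw [← hX] at t3 hX0 ⊢
      have h2 : ‖H z‖ ≤ Q * (1 + X) := by
        rw [hHe z]
        have b1 : ‖K.a (σ z) K.Ω‖ ≤ ‖K.a‖ * C₀ * ‖K.Ω‖ := by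
          refine ((K.a (σ z)).le_opNorm _).trans ?_
          apply mul_le_mul_of_nonneg_right _ (norm_nonneg _)
          refine (K.a.le_opNorm _).trans ?_
          exact mul_le_mul_of_nonneg_left (hLD.sb z (hone z hz)) hKa
        have b2 : ‖K.c (F z) (T z)‖ ≤ ‖K.c‖ * C₀ * (L * X) := by
          refine ((K.c (F z)).le_opNorm _).trans ?_
          apply mul_le_mul _ t3 (norm_nonneg _) (by positivity)
          exact (K.c.le_opNorm _).trans (mul_le_mul_of_nonneg_left (hLD.Fb z (hone z hz)) hKc)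
        calc _ ≤ ‖K.a (σ z) K.Ω‖ + ‖K.c (F z) (T z)‖ := norm_sub_le _ _
          _ ≤ ‖K.a‖ * C₀ * ‖K.Ω‖ + ‖K.c‖ * C₀ * (L * X) := add_le_add b1 b2
          _ ≤ ‖K.a‖ * C₀ * ‖K.Ω‖ + ‖K.c‖ * C₀ * (L * X) +
              (‖K.a‖ * C₀ * ‖K.Ω‖ * X + ‖K.c‖ * C₀ * L) :=
              le_add_of_nonneg_right (by positivity)
          _ = _ := by rw [hQ]; ring
      calc ‖K.ω (K.c (ContinuousLinearMap.proj j) (H z))‖
          ≤ ‖K.ω‖ * ‖K.c (ContinuousLinearMap.proj j) (H z)‖ := K.ω.le_opNorm _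
        _ ≤ ‖K.ω‖ * (‖K.c‖ * (Q * (1 + X))) := by
            apply mul_le_mul_of_nonneg_left _ hKω
            refine ((K.c (ContinuousLinearMap.proj j)).le_opNorm _).trans ?_
            apply mul_le_mul _ h2 (norm_nonneg _) hKc
            refine (K.c.le_opNorm _).trans ?_
            calc ‖K.c‖ * ‖(ContinuousLinearMap.proj j : (Fin N → ℂ) →L[ℂ] ℂ)‖ ≤ ‖K.c‖ * 1 :=
                  mul_le_mul_of_nonneg_left (QS.proj_norm j) hKc
              _ = ‖K.c‖ := mul_one _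
        _ = ‖K.ω‖ * ‖K.c‖ * Q * (1 + X) := by ring
        _ ≤ _ := by
            gcongr
            linarith


end Pool.Agent.MPca0fc2.TK
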