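import Mathlib
import Pool.Agent.Lib.MP_ca0fc2_an.TK.N4

set_option autoImplicit false
set_option linter.unusedSectionVars false

open Metric Set MeasureTheory Filter Topology
open scoped InnerProductSpace ENNReal ContDiff

namespace Pool.Agent.MPca0fc2.TK

variable {E : Type*} [NormedAddCommGroup E] [InnerProductSpace ℂ E]

private lemma N5_dist {ζ z : E} (hζ : ‖ζ‖ = 1) (hz : ‖z‖ < 1) :
    (1 - ‖z‖ ^ 2) / 2 ≤ ‖1 - ⟪ζ, z⟫_ℂ‖ ∧ ‖1 - ⟪ζ, z⟫_ℂ‖ ≤ 2 ∧ 0 < ‖1 - ⟪ζ, z⟫_ℂ‖ := by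
  have h1 : ‖⟪ζ, z⟫_ℂ‖ ≤ ‖z‖ := by
    have := norm_inner_le_norm (𝕜 := ℂ) ζ z
    rwa [hζ, one_mul] at this
  have h2 : 1 - ‖⟪ζ, z⟫_ℂ‖ ≤ ‖1 - ⟪ζ, z⟫_ℂ‖ := by
    have := norm_sub_norm_le (1 : ℂ) ⟪ζ, z⟫_ℂ
    simpa using this
  have h3 : ‖1 - ⟪ζ, z⟫_ℂ‖ ≤ 1 + ‖⟪ζ, z⟫_ℂ‖ := by
    have := norm_sub_le (1 : ℂ) ⟪ζ, z⟫_ℂ
    simpa using this
  have h0 := norm_nonneg z
  refine ⟨?_, ?_, ?_⟩
  · nlinarith
  · linarith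
  · linarith

private lemma N5_rpow {s b D : ℝ} (hs : 0 < s) (hb : 0 < b) (hD : 0 < D) :
    (b * D ^ (-s)) ^ (-(1 / s)) = b ^ (-(1 / s)) * D := by
  rw [Real.mul_rpow hb.le (Real.rpow_nonneg hD.le _), ← Real.rpow_mul hD.le]
  have : -s * -(1 / s) = 1 := by field_simp
  rw [this, Real.rpow_one]

/-- Thin sets have admissible functions. Proof. `H z = exp (-(log (F z))/s)` (`exists_FF`; principal logarithm, `Re F > 0`): holomorphic, `‖H z‖ = ‖F z‖^(-1/s)` (`Complex.norm_exp`, `Complex.log_re`). For all `ζ ∈ K`: `‖H z‖ ≤ (a ‖1 - ⟪ζ, z⟫‖^(-s))^(-1/s) = a^(-1/s) ‖1 - ⟪ζ, z⟫‖` (`‖F‖ ≥ Re F`), and for some `ζ ∈ K`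
`‖H z‖ ≥ A^(-1/s) ‖1 - ⟪ζ, z⟫‖`; `‖1 - ⟪ζ, z⟫‖ ≥ 1 - ‖z‖ ≥ (1 - ‖z‖²)/2` gives `lo`, `‖1 - ⟪ζ, z⟫‖ ≤ 2` gives `up`; `tri`: choose `ζ` for `w`: `‖H z‖ ≤ a^(-1/s) ‖1 - ⟪ζ, z⟫‖ ≤ 2 a^(-1/s) (‖1 - ⟪ζ, w⟫‖ + ‖1 - ⟪w, z⟫‖)` (`qtri`) `≤ const (‖H w‖ + ‖1 - ⟪w, z⟫‖)`. -/
theorem thin_adm {β C : ℝ} (hβ0 : 0 ≤ β) (hβ1 : β < 1) (hC : 0 < C) :
    ∃ c C' : ℝ, 0 < c ∧ 0 < C' ∧ ∀ K : Set E, Hom β C K → K ⊆ sphere 0 1 → K.Nonempty →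
      ∃ H : E → ℂ, Adm c C' H ∧
        ∀ ζ ∈ K, ∀ z ∈ ball (0 : E) 1, ‖H z‖ ≤ C' * ‖1 - ⟪ζ, z⟫_ℂ‖ := by
  obtain ⟨s, a, A, hs, ha, hA, hF⟩ := exists_FF (E := E) hβ0 hβ1 hC
  have ha' : 0 < a ^ (-(1 / s)) := Real.rpow_pos_of_pos ha _
  have hA' : 0 < A ^ (-(1 / s)) := Real.rpow_pos_of_pos hA _
  set a1 := a ^ (-(1 / s)) with ha1
  set A1 := A ^ (-(1 / s)) with hA1
  have hC1 : 0 < 2 * a1 * (1 / A1 + 1) := by positivity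
  have hC2 : 2 * a1 ≤ 2 * a1 * (1 / A1 + 1) := by
    have : 0 < 1 / A1 := by positivity
    nlinarith
  refine ⟨A1 / 2, 2 * a1 * (1 / A1 + 1), by positivity, hC1, ?_⟩
  intro K hK hKs hKn
  obtain ⟨F, hFd, hFlo, hFup⟩ := hF K hK hKs hKn
  obtain ⟨ζ₀, hζ₀⟩ := hKn
  have hnorm : ∀ ζ ∈ K, ‖ζ‖ = 1 := fun ζ hζ => by simpa using hKs hζ
  have hre : ∀ z ∈ ball (0 : E) 1, 0 < (F z).re := by
    intro z hz
    have h1 := N5_dist (hnorm ζ₀ hζ₀) (by simpa using hz)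
    exact lt_of_lt_of_le (mul_pos ha (Real.rpow_pos_of_pos h1.2.2 _)) (hFlo z hz ζ₀ hζ₀)
  have hne : ∀ z ∈ ball (0 : E) 1, F z ≠ 0 := by
    intro z hz h
    have := hre z hz
    rw [h] at this
    simp at this
  have hFn : ∀ z ∈ ball (0 : E) 1, 0 < ‖F z‖ := fun z hz => norm_pos_iff.2 (hne z hz)
  have hH : ∀ z ∈ ball (0 : E) 1, ‖Complex.exp (-(Complex.log (F z)) / (s : ℂ))‖ = ‖F z‖ ^ (-(1 / s)) := by
    intro z hz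
    rw [Complex.norm_exp, Complex.div_ofReal_re, Complex.neg_re, Complex.log_re,
      Real.rpow_def_of_pos (hFn z hz)]
    congr 1
    field_simp
  have hup : ∀ ζ ∈ K, ∀ z ∈ ball (0 : E) 1,
      ‖Complex.exp (-(Complex.log (F z)) / (s : ℂ))‖ ≤ a1 * ‖1 - ⟪ζ, z⟫_ℂ‖ := by
    intro ζ hζ z hz
    have h1 := N5_dist (hnorm ζ hζ) (by simpa using hz)
    have h2 : a * ‖1 - ⟪ζ, z⟫_ℂ‖ ^ (-s) ≤ ‖F z‖ :=
      (hFlo z hz ζ hζ).trans (Complex.re_le_norm _)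
    rw [hH z hz, ha1, ← N5_rpow hs ha h1.2.2]
    exact Real.rpow_le_rpow_of_nonpos (mul_pos ha (Real.rpow_pos_of_pos h1.2.2 _)) h2
      (by have : 0 < 1 / s := by positivity
          linarith)
  have hlo : ∀ z ∈ ball (0 : E) 1, ∃ ζ ∈ K,
      A1 * ‖1 - ⟪ζ, z⟫_ℂ‖ ≤ ‖Complex.exp (-(Complex.log (F z)) / (s : ℂ))‖ := by
    intro z hz
    obtain ⟨ζ, hζ, h2⟩ := hFup z hz
    have h1 := N5_dist (hnorm ζ hζ) (by simpa using hz)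
    refine ⟨ζ, hζ, ?_⟩
    rw [hH z hz, hA1, ← N5_rpow hs hA h1.2.2]
    exact Real.rpow_le_rpow_of_nonpos (hFn z hz) h2
      (by have : 0 < 1 / s := by positivity
          linarith)
  refine ⟨fun z => Complex.exp (-(Complex.log (F z)) / (s : ℂ)), ⟨?_, ?_, ?_, ?_⟩, ?_⟩
  · have e1 : DifferentiableOn ℂ (fun z => Complex.log (F z)) (ball (0 : E) 1) :=
      hFd.clog fun z hz => Or.inl (hre z hz)
    have e2 : DifferentiableOn ℂ (fun z => -(Complex.log (F z)) / (s : ℂ)) (ball (0 : E) 1) := by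
      have e3 := e1.neg.mul_const ((s : ℂ)⁻¹)
      refine e3.congr fun z _ => ?_
      rw [div_eq_mul_inv]
      rfl
    exact e2.cexp
  · intro z hz
    obtain ⟨ζ, hζ, h2⟩ := hlo z hz
    have h1 := N5_dist (hnorm ζ hζ) (by simpa using hz)
    refine le_trans ?_ h2
    have := mul_le_mul_of_nonneg_left h1.1 hA'.le
    linarith
  · intro z hz
    have h1 := N5_dist (hnorm ζ₀ hζ₀) (by simpa using hz)
    refine (hup ζ₀ hζ₀ z hz).trans ?_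
    have := mul_le_mul_of_nonneg_left h1.2.1 ha'.le
    linarith
  · intro z hz w hw
    obtain ⟨ζ, hζ, h2⟩ := hlo w hw
    have hz1 : ‖z‖ < 1 := by simpa using hz
    have hw1 : ‖w‖ < 1 := by simpa using hw
    have h3 := qtri (x := ζ) (y := w) (z := z) (hnorm ζ hζ).le hw1.le hz1.le
    have h4 : ‖1 - ⟪ζ, w⟫_ℂ‖ ≤ 1 / A1 * ‖Complex.exp (-(Complex.log (F w)) / (s : ℂ))‖ := by
      rw [one_div, inv_mul_eq_div, le_div_iff₀ hA', mul_comm]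
      exact h2
    have h5 := hup ζ hζ z hz
    have hn1 := norm_nonneg (Complex.exp (-(Complex.log (F w)) / (s : ℂ)))
    have hn2 := norm_nonneg (1 - ⟪w, z⟫_ℂ)
    have hAi : 0 < 1 / A1 := by positivity
    calc ‖Complex.exp (-(Complex.log (F z)) / (s : ℂ))‖ ≤ a1 * ‖1 - ⟪ζ, z⟫_ℂ‖ := h5
      _ ≤ a1 * (2 * (‖1 - ⟪ζ, w⟫_ℂ‖ + ‖1 - ⟪w, z⟫_ℂ‖)) := by gcongr
      _ ≤ a1 * (2 * (1 / A1 * ‖Complex.exp (-(Complex.log (F w)) / (s : ℂ))‖ + ‖1 - ⟪w, z⟫_ℂ‖)) := by gcongr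
      _ ≤ 2 * a1 * (1 / A1 + 1) * (‖Complex.exp (-(Complex.log (F w)) / (s : ℂ))‖ + ‖1 - ⟪w, z⟫_ℂ‖) := by
        have e1 : 0 ≤ a1 * ‖Complex.exp (-(Complex.log (F w)) / (s : ℂ))‖ := by positivity
        have e2 : 0 ≤ a1 * (1 / A1) * ‖1 - ⟪w, z⟫_ℂ‖ := by positivity
        nlinarith
  · intro ζ hζ z hz
    refine (hup ζ hζ z hz).trans ?_
    have h1 := norm_nonneg (1 - ⟪ζ, z⟫_ℂ)
    refine mul_le_mul_of_nonneg_right ?_ h1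
    linarith

end Pool.Agent.MPca0fc2.TK
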